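import Pool.Agent.H576R3.TorInv

set_option autoImplicit false

open scoped Manifold ContDiff Topology
open Set Filter

namespace Pool.Agent.H576R3

lemma cos_half_gt {a : ℝ} (h : |a| ≤ 1 / 2) : 3 / 4 < Real.cos a := by
  have h1 := Real.one_sub_sq_div_two_le_cos (x := a)
  have h2 : a ^ 2 ≤ 1 / 4 := by
    rw [← sq_abs]
    nlinarith [abs_nonneg a]
  linarith

lemma exists_sinc {a : ℝ} (h : |a| ≤ 1 / 2) :
    ∃ s : ℝ, Real.sin a = a * s ∧ Real.cos a ≤ s ∧ s ≤ 1 := by
  have key : ∀ b : ℝ, 0 < b → b ≤ 1 / 2 → Real.cos b ≤ Real.sin b / b ∧ Real.sin b / b ≤ 1 := by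
    intro b hb hb2
    have hpi := Real.pi_gt_three
    have hc : 0 < Real.cos b := Real.cos_pos_of_mem_Ioo ⟨by linarith, by linarith⟩
    constructor
    · have ht := Real.lt_tan hb (by linarith)
      rw [Real.tan_eq_sin_div_cos, lt_div_iff₀ hc] at ht
      rw [le_div_iff₀ hb]
      linarith
    · rw [div_le_one hb]
      exact (Real.sin_lt hb).le
  rcases lt_trichotomy a 0 with ha | ha | ha
  · obtain ⟨h1, h2⟩ := key (-a) (by linarith) (by rw [abs_of_neg ha] at h; exact h)
    refine ⟨Real.sin a / a, ?_, ?_, ?_⟩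
    · rw [mul_div_cancel₀ _ ha.ne]
    · simpa using h1
    · simpa using h2
  · refine ⟨1, ?_, ?_, le_rfl⟩
    · simp [ha]
    · simp [ha]
  · obtain ⟨h1, h2⟩ := key a ha (by rw [abs_of_pos ha] at h; exact h)
    refine ⟨Real.sin a / a, ?_, h1, h2⟩
    rw [mul_div_cancel₀ _ ha.ne']

lemma prod_bound {a b s t k : ℝ} (ha : 3 / 4 < a) (hb : 3 / 4 < b) (ha1 : a ≤ 1) (hb1 : b ≤ 1)
    (hs1 : a ≤ s) (hs2 : s ≤ 1) (ht1 : b ≤ t) (ht2 : t ≤ 1) (hk1 : -(1 / 2) ≤ k)
    (hk2 : k ≤ 1 / 2) : 0 < a + k * s ∧ 0 < b - k * t ∧ (a + k * s) * (b - k * t) ≤ 1 - k ^ 2 := by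
  have hA : 0 < a + k * s := by nlinarith
  have hB : 0 < b - k * t := by nlinarith
  refine ⟨hA, hB, ?_⟩
  have h1 : a + k * s ≤ 1 + k := by
    rcases le_total 0 k with h0 | h0 <;> nlinarith
  have h2 : b - k * t ≤ 1 - k := by
    rcases le_total 0 k with h0 | h0 <;> nlinarith
  calc (a + k * s) * (b - k * t) ≤ (1 + k) * (1 - k) :=
        mul_le_mul h1 h2 hB.le (by linarith)
    _ = 1 - k ^ 2 := by ring

lemma half_prod_abs {a b : ℝ} (ha : |a| ≤ 1) (hb : |b| ≤ 1) : |a * b / 2| ≤ 1 / 2 := by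
  rw [abs_div, abs_mul, abs_of_pos (by norm_num : (0:ℝ) < 2)]
  have := mul_le_mul ha hb (abs_nonneg b) zero_le_one
  linarith

lemma trig_zero {x y : ℝ} (q1 : Real.sin x * Real.cos y = 0) (q2 : Real.cos x * Real.sin y = 0)
    (q3 : Real.cos x * Real.cos y = 0) : Real.cos x = 0 ∧ Real.cos y = 0 := by
  have sx := Real.sin_sq_add_cos_sq x
  have sy := Real.sin_sq_add_cos_sq y
  constructor
  · have : Real.cos x ^ 2 = 0 := by
      calc Real.cos x ^ 2 = Real.cos x ^ 2 * (Real.sin y ^ 2 + Real.cos y ^ 2) := by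
            rw [sy, mul_one]
        _ = (Real.cos x * Real.sin y) ^ 2 + (Real.cos x * Real.cos y) ^ 2 := by ring
        _ = 0 := by rw [q2, q3]; ring
    exact pow_eq_zero_iff (two_ne_zero) |>.1 this
  · have : Real.cos y ^ 2 = 0 := by
      calc Real.cos y ^ 2 = Real.cos y ^ 2 * (Real.sin x ^ 2 + Real.cos x ^ 2) := by
            rw [sx, mul_one]
        _ = (Real.sin x * Real.cos y) ^ 2 + (Real.cos x * Real.cos y) ^ 2 := by ring
        _ = 0 := by rw [q1, q3]; ring
    exact pow_eq_zero_iff (two_ne_zero) |>.1 this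

lemma eq_zero_of_cos {a : ℝ} (h : |a| ≤ 1 / 2) (hc : Real.cos a = 1) : a = 0 := by
  have hpi := Real.pi_gt_three
  obtain ⟨a1, a2⟩ := abs_le.1 h
  exact (Real.cos_eq_one_iff_of_lt_of_lt (by linarith) (by linarith)).1 hc

/-- The key estimate: the energy `cos q - cos p = 2 sin x sin y` is multiplied by a factor in
`(0, 1]`, which is `< 1` except at the fixed points. -/
lemma factor (x y : ℝ) : ∃ r : ℝ, 0 < r ∧ r ≤ 1 ∧
    Real.sin (x + Real.sin x * Real.cos y / 2) * Real.sin (y - Real.cos x * Real.sin y / 2) =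
      r * (Real.sin x * Real.sin y) ∧
    (r = 1 → Real.cos x = 0 ∧ Real.cos y = 0) := by
  have hα1 := half_prod_abs (Real.abs_sin_le_one x) (Real.abs_cos_le_one y)
  have hβ1 := half_prod_abs (Real.abs_cos_le_one x) (Real.abs_sin_le_one y)
  have hk1 := half_prod_abs (Real.abs_cos_le_one x) (Real.abs_cos_le_one y)
  obtain ⟨s, hs, hs1, hs2⟩ := exists_sinc hα1
  obtain ⟨t, ht, ht1, ht2⟩ := exists_sinc hβ1
  have ca := cos_half_gt hα1
  have cb := cos_half_gt hβ1
  have ca1 := Real.cos_le_one (Real.sin x * Real.cos y / 2)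
  have cb1 := Real.cos_le_one (Real.cos x * Real.sin y / 2)
  obtain ⟨hk2, hk3⟩ := abs_le.1 hk1
  obtain ⟨hA, hB, hle⟩ := prod_bound ca cb ca1 cb1 hs1 hs2 ht1 ht2 hk2 hk3
  refine ⟨_, mul_pos hA hB, ?_, ?_, ?_⟩
  · have := sq_nonneg (Real.cos x * Real.cos y / 2)
    linarith
  · rw [Real.sin_add, Real.sin_sub, hs, ht]; ring
  · intro hr
    have hk0 : Real.cos x * Real.cos y / 2 = 0 := by
      rw [hr] at hle
      have : (Real.cos x * Real.cos y / 2) ^ 2 ≤ 0 := by linarith
      exact pow_eq_zero_iff (two_ne_zero) |>.1 (le_antisymm this (sq_nonneg _))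
    rw [hk0, zero_mul, zero_mul, add_zero, sub_zero] at hr
    have hca : Real.cos (Real.sin x * Real.cos y / 2) = 1 := by
      have h1 : Real.cos (Real.sin x * Real.cos y / 2) * Real.cos (Real.cos x * Real.sin y / 2) ≤
          Real.cos (Real.sin x * Real.cos y / 2) :=
        mul_le_of_le_one_right (by linarith) cb1
      linarith
    have hcb : Real.cos (Real.cos x * Real.sin y / 2) = 1 := by
      rw [hca, one_mul] at hr
      exact hr
    have ha0 := eq_zero_of_cos hα1 hca
    have hb0 := eq_zero_of_cos hβ1 hcb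
    exact trig_zero (by linarith) (by linarith) (by linarith)

/-- Energy on the torus. -/
noncomputable def en (x : Circle × Circle) : ℝ := (x.2 : ℂ).re - (x.1 : ℂ).re

/-- The four fixed points. -/
def fixSet : Set (Circle × Circle) := {x | (x.1 : ℂ).im = 0 ∧ (x.2 : ℂ).im = 0}

lemma en_cov (p : ℝ × ℝ) : en (cov p) = Real.cos p.2 - Real.cos p.1 := by
  simp only [en, cov, exp_re]

lemma en_torF (x : Circle × Circle) : ∃ r : ℝ, 0 < r ∧ r ≤ 1 ∧ en (torF x) = r * en x ∧
    (r = 1 → x ∈ fixSet) := by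
  obtain ⟨⟨p, q⟩, rfl⟩ := cov_surjective x
  obtain ⟨r, hr0, hr1, hr, hr2⟩ := factor ((p + q) / 2) ((p - q) / 2)
  have hE : ∀ a b : ℝ, Real.cos b - Real.cos a =
      2 * (Real.sin ((a + b) / 2) * Real.sin ((a - b) / 2)) := by
    intro a b
    rw [Real.cos_sub_cos]
    have : (b - a) / 2 = -((a - b) / 2) := by ring
    rw [this, Real.sin_neg, add_comm b a]
    ring
  have hsum : Real.sin p + Real.sin q =
      2 * (Real.sin ((p + q) / 2) * Real.cos ((p - q) / 2)) := by
    have h1 : Real.sin p = Real.sin ((p + q) / 2 + (p - q) / 2) := by congr 1; ring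
    have h2 : Real.sin q = Real.sin ((p + q) / 2 - (p - q) / 2) := by congr 1; ring
    rw [h1, h2, Real.sin_add, Real.sin_sub]; ring
  have hdiff : Real.sin q - Real.sin p =
      - (2 * (Real.cos ((p + q) / 2) * Real.sin ((p - q) / 2))) := by
    have h1 : Real.sin p = Real.sin ((p + q) / 2 + (p - q) / 2) := by congr 1; ring
    have h2 : Real.sin q = Real.sin ((p + q) / 2 - (p - q) / 2) := by congr 1; ring
    rw [h1, h2, Real.sin_add, Real.sin_sub]; ring
  refine ⟨r, hr0, hr1, ?_, ?_⟩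
  · rw [torF_cov, en_cov, en_cov]
    simp only [liftF]
    rw [hE, hE p q]
    have a1 : (p + Real.sin q / 2 + (q + Real.sin p / 2)) / 2 = (p + q) / 2 +
        Real.sin ((p + q) / 2) * Real.cos ((p - q) / 2) / 2 := by
      linarith
    have a2 : (p + Real.sin q / 2 - (q + Real.sin p / 2)) / 2 = (p - q) / 2 -
        Real.cos ((p + q) / 2) * Real.sin ((p - q) / 2) / 2 := by
      linarith
    rw [a1, a2, hr]
    ring
  · intro h
    obtain ⟨h1, h2⟩ := hr2 h
    constructor
    · simp only [cov, exp_im]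
      have e : Real.sin p = Real.sin ((p + q) / 2 + (p - q) / 2) := by congr 1; ring
      rw [e, Real.sin_add, h1, h2]; ring
    · simp only [cov, exp_im]
      have e : Real.sin q = Real.sin ((p + q) / 2 - (p - q) / 2) := by congr 1; ring
      rw [e, Real.sin_sub, h1, h2]; ring

lemma torF_fix {x : Circle × Circle} (hx : x ∈ fixSet) : torF x = x := by
  simp only [torF, hx.1, hx.2]
  simp

lemma torF_injective : Function.Injective torF := by
  intro x y h
  rw [← torG_torF x, h, torG_torF]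

lemma torF_mem_fix_iff {x : Circle × Circle} : torF x ∈ fixSet ↔ x ∈ fixSet := by
  constructor
  · intro h
    have := torF_fix h
    have h2 := torF_injective this
    rwa [h2] at h
  · intro h
    rwa [torF_fix h]

/-- one-dimensional estimate -/
lemma cos_add_lt {p e : ℝ} (hp : Real.sin p ≠ 0) (he : e = 1 ∨ e = -1) :
    e * Real.cos (p + e * Real.sin p / 2) < e * Real.cos p := by
  have hs := Real.abs_sin_le_one p
  set d := Real.sin p / 4 with hd
  have hd1 : |d| ≤ 1 / 2 := by
    rw [hd, abs_div, abs_of_pos (by norm_num : (0:ℝ) < 4)]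
    linarith
  obtain ⟨s, hs0, hs1, hs2⟩ := exists_sinc hd1
  have hc := cos_half_gt hd1
  have hcp := Real.abs_cos_le_one p
  obtain ⟨c1, c2⟩ := abs_le.1 hcp
  have hspos : 0 < Real.sin p ^ 2 := by positivity
  rcases he with rfl | rfl
  · have e1 : Real.cos (p + 1 * Real.sin p / 2) - Real.cos p =
        -(2 * (Real.sin (p + d) * Real.sin d)) := by
      rw [Real.cos_sub_cos]
      have a1 : (p + 1 * Real.sin p / 2 + p) / 2 = p + d := by rw [hd]; ring
      have a2 : (p + 1 * Real.sin p / 2 - p) / 2 = d := by rw [hd]; ring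
      rw [a1, a2]; ring
    have e2 : Real.sin (p + d) * Real.sin d =
        Real.sin p ^ 2 * (s / 4) * (Real.cos d + Real.cos p * s / 4) := by
      rw [Real.sin_add, hs0, hd]; ring
    have h3 : 0 < Real.cos d + Real.cos p * s / 4 := by nlinarith
    have h4 : 0 < Real.sin (p + d) * Real.sin d := by
      rw [e2]; exact mul_pos (mul_pos hspos (by linarith)) h3
    linarith
  · have e1 : Real.cos (p + -1 * Real.sin p / 2) - Real.cos p =
        (2 * (Real.sin (p - d) * Real.sin d)) := by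
      rw [Real.cos_sub_cos]
      have a1 : (p + -1 * Real.sin p / 2 + p) / 2 = p - d := by rw [hd]; ring
      have a2 : (p + -1 * Real.sin p / 2 - p) / 2 = -d := by rw [hd]; ring
      rw [a1, a2, Real.sin_neg]; ring
    have e2 : Real.sin (p - d) * Real.sin d =
        Real.sin p ^ 2 * (s / 4) * (Real.cos d - Real.cos p * s / 4) := by
      rw [Real.sin_sub, hs0, hd]; ring
    have h3 : 0 < Real.cos d - Real.cos p * s / 4 := by nlinarith
    have h4 : 0 < Real.sin (p - d) * Real.sin d := by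
      rw [e2]; exact mul_pos (mul_pos hspos (by linarith)) h3
    linarith

end Pool.Agent.H576R3
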