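import Mathlib

set_option autoImplicit false

open scoped Manifold ContDiff Topology
open MeasureTheory Filter

namespace Pool.Agent.H576R3.Defs

section Entropy

variable {X : Type*} [MeasurableSpace X]

/-- Shannon entropy of the finite partition of `X` into the sets `{P = i}`:
the sum over `i` of `- μ(P = i) log μ(P = i)`. -/
noncomputable def shannon {ι : Type*} [Fintype ι] (μ : Measure X) (P : X → ι) : ℝ :=
  ∑ i, Real.negMulLog (μ.real (P ⁻¹' {i}))

/-- The join of the partitions `P, T⁻¹P, ..., T^{-(n-1)}P`: the point `x` is labelled by the word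
`P(x), P(Tx), ..., P(T^{n-1}x)`. -/
def itin {ι : Type*} (T : X → X) (P : X → ι) (n : ℕ) (x : X) : Fin n → ι :=
  fun j => P (T^[j] x)

/-- Kolmogorov-Sinai entropy of `T` with respect to `μ`: the supremum over all finite measurable
partitions `P` of the (upper) limit of `H_μ(P ∨ T⁻¹P ∨ ... ∨ T^{-(n-1)}P) / n`. -/
noncomputable def ksEntropy (μ : Measure X) (T : X → X) : EReal :=
  ⨆ (k : ℕ) (P : X → Fin k) (_ : Measurable P),
    limsup (fun n : ℕ => ((shannon μ (itin T P n) / n : ℝ) : EReal)) atTop

end Entropy

section Exponents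

variable {E : Type*} [NormedAddCommGroup E] [NormedSpace ℝ E] {H : Type*} [TopologicalSpace H]
  (I : ModelWithCorners ℝ E H) {M : Type*} [TopologicalSpace M] [ChartedSpace H M]
  {W : Type*} [NormedAddCommGroup W] [NormedSpace ℝ W]

/-- `M` is a closed (compact, connected, Hausdorff, without boundary) real-analytic surface with
its Borel `σ`-algebra. -/
structure IsClosedAnalyticSurface (M : Type*) [TopologicalSpace M] [ChartedSpace H M]
    [MeasurableSpace M] : Prop where
  analytic : IsManifold I ω M
  boundaryless : I.Boundaryless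
  dim : Module.finrank ℝ E = 2
  compact : CompactSpace M
  hausdorff : T2Space M
  connected : ConnectedSpace M
  borel : BorelSpace M

/-- `F` is a `C^1` immersion of `M` in the normed space `W`. It induces a continuous norm
`‖D F(x) u‖` on the tangent spaces of `M`; on a compact manifold the exponents below do not
depend on the choice of such a norm (or of a Riemannian metric). -/
structure IsImmersion (F : M → W) : Prop where
  smooth : ContMDiff I 𝓘(ℝ, W) 1 F
  injective : ∀ x, Function.Injective (mvfderiv I F x)

/-- `(1/n) log ‖T_x f^n u‖`, the length of the tangent vector `T_x f^n u` being measured with the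
norm induced by the immersion `F`, i.e. it is the norm of `D(F ∘ f^n)(x) u`. -/
noncomputable def growth (F : M → W) (f : M → M) (x : M) (u : TangentSpace I x) (n : ℕ) : ℝ :=
  Real.log ‖mvfderiv I (F ∘ f^[n]) x u‖ / n

/-- `(V i, χ i)` is the Oseledets splitting of the tangent space at `x` with its characteristic
exponents, for the invertible map `f` with inverse `f'`: the tangent space is the direct sum of the
`V i`, the exponents `χ i` are distinct, and `(1/n) log ‖T_x f^n u‖` tends to `χ i` as
`n → ± ∞` for every nonzero `u` in `V i`. -/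
structure IsOseledets (F : M → W) (f f' : M → M) (x : M) {k : ℕ}
    (V : Fin k → Submodule ℝ (TangentSpace I x)) (χ : Fin k → ℝ) : Prop where
  internal : DirectSum.IsInternal V
  distinct : Function.Injective χ
  forward : ∀ i, ∀ u ∈ V i, u ≠ 0 → Tendsto (growth I F f x u) atTop (𝓝 (χ i))
  backward : ∀ i, ∀ u ∈ V i, u ≠ 0 → Tendsto (growth I F f' x u) atTop (𝓝 (-χ i))

/-- `χ₊(x) = s`: the sum of the positive characteristic exponents of `f` at `x`, counted with
multiplicity `dim V i`, exists and equals `s`. -/
def IsChiPlus (F : M → W) (f f' : M → M) (x : M) (s : ℝ) : Prop :=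
  ∃ (k : ℕ) (V : Fin k → Submodule ℝ (TangentSpace I x)) (χ : Fin k → ℝ),
    IsOseledets I F f f' x V χ ∧ s = ∑ i, max (χ i) 0 * (Module.finrank ℝ (V i) : ℝ)

/-- For the measure `ρ`: the sum `χ₊` of the positive characteristic exponents exists `ρ`-almost
everywhere, and every function `χ` which is `ρ`-almost everywhere equal to it is `ρ`-integrable and
satisfies `h(ρ) ≤ ∫ χ dρ - c`. -/
def HasRuelleGap [MeasurableSpace M] (F : M → W) (f f' : M → M) (ρ : Measure M) (c : ℝ) : Prop :=
  (∃ χ : M → ℝ, ∀ᵐ x ∂ρ, IsChiPlus I F f f' x (χ x)) ∧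
  ∀ χ : M → ℝ, (∀ᵐ x ∂ρ, IsChiPlus I F f f' x (χ x)) →
    Integrable χ ρ ∧ ksEntropy ρ f ≤ ((∫ x, χ x ∂ρ - c : ℝ) : EReal)

end Exponents

end Pool.Agent.H576R3.Defs
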