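import Pool.Agent.H576R3.EntDefs

set_option autoImplicit false

open scoped Manifold ContDiff Topology
open Bundle MeasureTheory Filter

namespace Pool.Agent.H576R3

open Defs

variable {X : Type*} [MeasurableSpace X]

lemma shannon_congr {ι : Type*} [Fintype ι] {μ : Measure X} {P Q : X → ι} (h : P =ᵐ[μ] Q) :
    shannon μ P = shannon μ Q := by
  unfold shannon
  refine Finset.sum_congr rfl fun i _ => ?_
  congr 1
  apply measureReal_congr
  filter_upwards [h] with x hx
  show (x ∈ P ⁻¹' {i}) = (x ∈ Q ⁻¹' {i})
  simp only [Set.mem_preimage, hx]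

lemma shannon_const {μ : Measure X} {k : ℕ} (P : X → Fin k) {n : ℕ} (hn : 0 < n) :
    shannon μ (fun x => (fun _ : Fin n => P x)) = shannon μ P := by
  unfold shannon
  symm
  have : Nonempty (Fin n) := ⟨⟨0, hn⟩⟩
  refine Fintype.sum_of_injective (fun i : Fin k => (fun _ : Fin n => i)) ?_ _ _ ?_ ?_
  · intro a b h
    exact congrFun h (Classical.arbitrary _)
  · intro w hw
    have : (fun x => (fun _ : Fin n => P x)) ⁻¹' {w} = ∅ := by
      ext x
      simp only [Set.mem_preimage, Set.mem_singleton_iff, Set.mem_empty_iff_false, iff_false]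
      intro h
      exact hw ⟨P x, h⟩
    rw [this]
    simp
  · intro i
    congr 2
    ext x
    simp only [Set.mem_preimage, Set.mem_singleton_iff]
    constructor
    · intro h; rw [h]
    · intro h; exact congrFun h (Classical.arbitrary _)

/-- A measure carried by fixed points has entropy zero. -/
lemma ksEntropy_le_zero {μ : Measure X} {T : X → X} (h : ∀ᵐ x ∂μ, T x = x) :
    ksEntropy μ T ≤ 0 := by
  unfold ksEntropy
  refine iSup_le fun k => iSup_le fun P => iSup_le fun _ => ?_
  have h1 : ∀ n : ℕ, 0 < n → shannon μ (itin T P n) = shannon μ P := by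
    intro n hn
    rw [← shannon_const P hn]
    apply shannon_congr
    filter_upwards [h] with x hx
    funext j
    simp only [itin]
    rw [Function.iterate_fixed hx]
  have h2 : Tendsto (fun n : ℕ => ((shannon μ (itin T P n) / n : ℝ) : EReal)) atTop
      (𝓝 ((0 : ℝ) : EReal)) := by
    apply (continuous_coe_real_ereal.tendsto 0).comp
    have h3 : Tendsto (fun n : ℕ => shannon μ P / n) atTop (𝓝 0) :=
      tendsto_const_div_atTop_nhds_zero_nat _
    refine h3.congr' ?_
    filter_upwards [eventually_gt_atTop 0] with n hn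
    rw [h1 n hn]
  rw [h2.limsup_eq]
  simp

end Pool.Agent.H576R3
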