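import Pool.Agent.H576R3.Osel

set_option autoImplicit false

open scoped Manifold ContDiff Topology
open Bundle Set Filter MeasureTheory

namespace Pool.Agent.H576R3

open Defs

attribute [local instance] finrank_real_complex_fact'

variable {W : Type*} [NormedAddCommGroup W] [NormedSpace ℝ W]

/-- Length of `covD p w` -/
noncomputable def NN (F : Circle × Circle → W) (p w : ℝ × ℝ) : ℝ := ‖fderiv ℝ (F ∘ cov) p w‖

section

variable {F : Circle × Circle → W} (hF : IsImmersion ((𝓡 1).prod (𝓡 1)) F)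

include hF

lemma mdiff_imm : MDifferentiable ((𝓡 1).prod (𝓡 1)) 𝓘(ℝ, W) F :=
  hF.smooth.mdifferentiable one_ne_zero

lemma NN_pos (p : ℝ × ℝ) {w : ℝ × ℝ} (hw : w ≠ 0) : 0 < NN F p w := by
  unfold NN
  rw [norm_pos_iff, ← mf_chain (mdiff_imm hF)]
  intro h
  have h2 : covD p w = 0 := hF.injective (cov p) (by
    refine Eq.trans h ?_
    exact (map_zero _).symm)
  exact hw ((covD_injective p) (by rw [h2, map_zero]))

omit hF in
lemma NN_smul (F : Circle × Circle → W) (p : ℝ × ℝ) (r : ℝ) (w : ℝ × ℝ) :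
    NN F p (r • w) = |r| * NN F p w := by
  unfold NN
  rw [map_smul, norm_smul, Real.norm_eq_abs]

omit hF in
lemma NN_continuous (F : Circle × Circle → W) (p : ℝ × ℝ) : Continuous (NN F p) :=
  (fderiv ℝ (F ∘ cov) p).continuous.norm

lemma NN_comparison (p : ℝ × ℝ) : ∃ c C : ℝ, 0 < c ∧ 0 < C ∧
    ∀ w, c * ‖w‖ ≤ NN F p w ∧ NN F p w ≤ C * ‖w‖ :=
  norm_comparison (NN_continuous F p) (NN_smul F p) (fun _ hw => NN_pos hF p hw)

end

lemma mdiff_torF : MDifferentiable ((𝓡 1).prod (𝓡 1)) ((𝓡 1).prod (𝓡 1)) torF :=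
  (contMDiff_torF (m := 1)).mdifferentiable one_ne_zero

lemma mdiff_torG : MDifferentiable ((𝓡 1).prod (𝓡 1)) ((𝓡 1).prod (𝓡 1)) torG :=
  (contMDiff_torG (m := 1)).mdifferentiable one_ne_zero

/-- A fixed lift. -/
def IsFix (p : ℝ × ℝ) : Prop := Real.sin p.1 = 0 ∧ Real.sin p.2 = 0

lemma IsFix.liftF {p : ℝ × ℝ} (hp : IsFix p) : liftF p = p := by
  unfold H576R3.liftF
  rw [hp.1, hp.2]
  ext <;> simp

lemma IsFix.liftH_symm {p : ℝ × ℝ} (hp : IsFix p) : liftH.symm p = p := by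
  rw [Homeomorph.symm_apply_eq, liftH_apply, hp.liftF]

lemma exists_isFix {x : Circle × Circle} (hx : x ∈ fixSet) : ∃ p, cov p = x ∧ IsFix p := by
  obtain ⟨p, rfl⟩ := cov_surjective x
  refine ⟨p, rfl, ?_, ?_⟩
  · have := hx.1
    simpa only [cov, exp_im] using this
  · have := hx.2
    simpa only [cov, exp_im] using this

lemma hasFDerivAt_symm {p : ℝ × ℝ} (hp : IsFix p) : HasFDerivAt (liftH.symm : ℝ × ℝ → ℝ × ℝ)
    ((liftDE p).symm : (ℝ × ℝ) →L[ℝ] (ℝ × ℝ)) p := by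
  have h1 : HasFDerivAt liftF ((liftDE p : (ℝ × ℝ) ≃L[ℝ] (ℝ × ℝ)) : (ℝ × ℝ) →L[ℝ] (ℝ × ℝ))
      (liftH.symm p) := by
    rw [hp.liftH_symm]
    exact liftF_hasFDerivAt p
  apply HasFDerivAt.of_local_left_inverse liftH.symm.continuous.continuousAt h1
  filter_upwards with y
  exact liftH.apply_symm_apply y

/-- The inverse derivative at a fixed lift. -/
noncomputable def invD (p : ℝ × ℝ) : (ℝ × ℝ) →L[ℝ] (ℝ × ℝ) :=
  ((liftDE p).symm : (ℝ × ℝ) →L[ℝ] (ℝ × ℝ))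

/-- forward transfer -/
lemma fwd_eq {F : Circle × Circle → W} (hF : IsImmersion ((𝓡 1).prod (𝓡 1)) F) {p : ℝ × ℝ}
    (hp : IsFix p) (v : ℝ × ℝ) :
    growth ((𝓡 1).prod (𝓡 1)) F torF (cov p) (covD p v) =
      fun n : ℕ => Real.log (NN F p ((liftD p ^ n) v)) / n := by
  funext n
  have h1 := mf_iter (mdiff_imm hF) mdiff_torF (h := liftF) (fun q => (torF_cov q).symm)
    hp.liftF (liftF_hasFDerivAt p) n v
  unfold NN
  rw [← h1]
  rfl

/-- backward transfer -/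
lemma bwd_eq {F : Circle × Circle → W} (hF : IsImmersion ((𝓡 1).prod (𝓡 1)) F) {p : ℝ × ℝ}
    (hp : IsFix p) (v : ℝ × ℝ) :
    growth ((𝓡 1).prod (𝓡 1)) F torG (cov p) (covD p v) =
      fun n : ℕ => Real.log (NN F p ((invD p ^ n) v)) / n := by
  funext n
  have h1 := mf_iter (mdiff_imm hF) mdiff_torG (h := liftH.symm) (fun q => (torG_cov q).symm)
    hp.liftH_symm (hasFDerivAt_symm hp) n v
  unfold NN invD
  rw [← h1]
  rfl

end Pool.Agent.H576R3
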