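import Mathlib

set_option autoImplicit false

open scoped Topology
open Filter

namespace Pool.Agent.H576R3

/-- A continuous, absolutely homogeneous function which is positive off the origin is comparable
with the norm. -/
lemma norm_comparison {N : ℝ × ℝ → ℝ} (hc : Continuous N) (hh : ∀ (r : ℝ) w, N (r • w) = |r| * N w)
    (hp : ∀ w, w ≠ 0 → 0 < N w) : ∃ c C : ℝ, 0 < c ∧ 0 < C ∧ ∀ w, c * ‖w‖ ≤ N w ∧ N w ≤ C * ‖w‖ := by
  have hK : IsCompact (Metric.sphere (0 : ℝ × ℝ) 1) := isCompact_sphere _ _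
  have hne : (Metric.sphere (0 : ℝ × ℝ) 1).Nonempty := by
    refine ⟨(1, 0), ?_⟩
    simp [Prod.norm_def]
  obtain ⟨a, ha, ha1⟩ := hK.exists_isMinOn hne hc.continuousOn
  obtain ⟨b, hb, hb1⟩ := hK.exists_isMaxOn hne hc.continuousOn
  have hane : a ≠ 0 := by
    intro h
    rw [h] at ha
    simp at ha
  have hbne : b ≠ 0 := by
    intro h
    rw [h] at hb
    simp at hb
  refine ⟨N a, N b, hp a hane, hp b hbne, fun w => ?_⟩
  by_cases hw : w = 0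
  · have h0 : N 0 = 0 := by
      have := hh 0 0
      simpa using this
    rw [hw, h0, norm_zero]
    simp
  · have hw' : 0 < ‖w‖ := norm_pos_iff.2 hw
    have e : N w = ‖w‖ * N (‖w‖⁻¹ • w) := by
      rw [hh, abs_of_pos (inv_pos.2 hw'), ← mul_assoc, mul_inv_cancel₀ hw'.ne', one_mul]
    have hs : ‖w‖⁻¹ • w ∈ Metric.sphere (0 : ℝ × ℝ) 1 := by
      rw [mem_sphere_zero_iff_norm, norm_smul, norm_inv, norm_norm, inv_mul_cancel₀ hw'.ne']
    have h1 : N a ≤ N (‖w‖⁻¹ • w) := ha1 hs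
    have h2 : N (‖w‖⁻¹ • w) ≤ N b := hb1 hs
    rw [e]
    constructor
    · rw [mul_comm]
      exact mul_le_mul_of_nonneg_left h1 hw'.le
    · rw [mul_comm (N b)]
      exact mul_le_mul_of_nonneg_left h2 hw'.le

lemma tendsto_log_div {s : ℕ → ℝ} {a b r : ℝ} (ha : 0 < a) (hb : 0 < b) (hr : 0 < r)
    (h1 : ∀ n, a * r ^ n ≤ s n) (h2 : ∀ n, s n ≤ b * r ^ n) :
    Tendsto (fun n : ℕ => Real.log (s n) / n) atTop (𝓝 (Real.log r)) := by
  have hl : ∀ c : ℝ, 0 < c → Tendsto (fun n : ℕ => Real.log (c * r ^ n) / n) atTop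
      (𝓝 (Real.log r)) := by
    intro c hc
    have h3 : Tendsto (fun n : ℕ => Real.log c / n + Real.log r) atTop (𝓝 (0 + Real.log r)) :=
      (tendsto_const_div_atTop_nhds_zero_nat _).add tendsto_const_nhds
    rw [zero_add] at h3
    refine h3.congr' ?_
    filter_upwards [eventually_gt_atTop 0] with n hn
    have hn' : (n : ℝ) ≠ 0 := by positivity
    rw [Real.log_mul hc.ne' (by positivity), Real.log_pow]
    field_simp
  refine tendsto_of_tendsto_of_tendsto_of_le_of_le (hl a ha) (hl b hb) ?_ ?_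
  · intro n
    have : 0 < a * r ^ n := by positivity
    exact div_le_div_of_nonneg_right (Real.log_le_log this (h1 n)) (Nat.cast_nonneg n)
  · intro n
    have : 0 < s n := lt_of_lt_of_le (by positivity) (h1 n)
    exact div_le_div_of_nonneg_right (Real.log_le_log this (h2 n)) (Nat.cast_nonneg n)

/-- The linear map `(v₁, v₂) ↦ (v₁ + b/2 v₂, v₂ + a/2 v₁)` -/
lemma pow_eigen {B : (ℝ × ℝ) →L[ℝ] (ℝ × ℝ)} {v : ℝ × ℝ} {r : ℝ} (h : B v = r • v) (n : ℕ) :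
    (B ^ n) v = (r ^ n) • v := by
  induction n with
  | zero => simp
  | succ n ih =>
    rw [pow_succ, mul_apply_eq_comp, h, map_smul, ih, smul_smul, pow_succ, mul_comm]

lemma pow_quad {B : (ℝ × ℝ) →L[ℝ] (ℝ × ℝ)} {r : ℝ}
    (h : ∀ v : ℝ × ℝ, (B v).1 ^ 2 + (B v).2 ^ 2 = r * (v.1 ^ 2 + v.2 ^ 2)) (n : ℕ) (v : ℝ × ℝ) :
    ((B ^ n) v).1 ^ 2 + ((B ^ n) v).2 ^ 2 = r ^ n * (v.1 ^ 2 + v.2 ^ 2) := by
  induction n generalizing v with
  | zero => simp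
  | succ n ih =>
    rw [pow_succ B, mul_apply_eq_comp, ih, h, pow_succ]
    ring

lemma norm_le_sqrt (w : ℝ × ℝ) : ‖w‖ ≤ Real.sqrt (w.1 ^ 2 + w.2 ^ 2) := by
  rw [Prod.norm_def]
  apply max_le
  · apply Real.le_sqrt_of_sq_le
    rw [Real.norm_eq_abs, sq_abs]
    nlinarith [sq_nonneg w.2]
  · apply Real.le_sqrt_of_sq_le
    rw [Real.norm_eq_abs, sq_abs]
    nlinarith [sq_nonneg w.1]

lemma sqrt_le_norm (w : ℝ × ℝ) : Real.sqrt (w.1 ^ 2 + w.2 ^ 2) ≤ 2 * ‖w‖ := by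
  apply Real.sqrt_le_iff.2
  constructor
  · positivity
  · have h1 : |w.1| ≤ ‖w‖ := by simpa using norm_fst_le w
    have h2 : |w.2| ≤ ‖w‖ := by simpa using norm_snd_le w
    have h3 : w.1 ^ 2 ≤ ‖w‖ ^ 2 := by rw [← sq_abs]; gcongr
    have h4 : w.2 ^ 2 ≤ ‖w‖ ^ 2 := by rw [← sq_abs]; gcongr
    nlinarith [sq_nonneg ‖w‖]

lemma sqrt_pow_eq {r : ℝ} (hr : 0 ≤ r) (n : ℕ) : Real.sqrt (r ^ n) = Real.sqrt r ^ n := by
  have : r ^ n = (Real.sqrt r ^ n) ^ 2 := by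
    rw [← pow_mul, mul_comm, pow_mul, Real.sq_sqrt hr]
  rw [this, Real.sqrt_sq (by positivity)]

/-- exponents along an eigendirection -/
lemma exponent_eigen {N : ℝ × ℝ → ℝ} {c C : ℝ} (hc0 : 0 < c) (hC0 : 0 < C)
    (hN : ∀ w, c * ‖w‖ ≤ N w ∧ N w ≤ C * ‖w‖)
    {B : (ℝ × ℝ) →L[ℝ] (ℝ × ℝ)} {v : ℝ × ℝ} {r : ℝ} (hr : 0 < r) (hv : v ≠ 0) (h : B v = r • v) :
    Tendsto (fun n : ℕ => Real.log (N ((B ^ n) v)) / n) atTop (𝓝 (Real.log r)) := by
  have hv' : 0 < ‖v‖ := norm_pos_iff.2 hv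
  refine tendsto_log_div (a := c * ‖v‖) (b := C * ‖v‖) (by positivity) (by positivity) hr ?_ ?_
  · intro n
    refine le_trans (le_of_eq ?_) (hN _).1
    rw [pow_eigen h, norm_smul, norm_pow, Real.norm_of_nonneg hr.le]
    ring
  · intro n
    refine le_trans (hN _).2 (le_of_eq ?_)
    rw [pow_eigen h, norm_smul, norm_pow, Real.norm_of_nonneg hr.le]
    ring

/-- exponents of a similarity -/
lemma exponent_quad {N : ℝ × ℝ → ℝ} {c C : ℝ} (hc0 : 0 < c) (hC0 : 0 < C)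
    (hN : ∀ w, c * ‖w‖ ≤ N w ∧ N w ≤ C * ‖w‖)
    {B : (ℝ × ℝ) →L[ℝ] (ℝ × ℝ)} {v : ℝ × ℝ} {r : ℝ} (hr : 0 < r) (hv : v ≠ 0)
    (h : ∀ v : ℝ × ℝ, (B v).1 ^ 2 + (B v).2 ^ 2 = r * (v.1 ^ 2 + v.2 ^ 2)) :
    Tendsto (fun n : ℕ => Real.log (N ((B ^ n) v)) / n) atTop (𝓝 (Real.log r / 2)) := by
  have hv' : 0 < ‖v‖ := norm_pos_iff.2 hv
  have hq : 0 < v.1 ^ 2 + v.2 ^ 2 := by
    have h1 := norm_le_sqrt v
    by_contra hcon
    push Not at hcon
    rw [Real.sqrt_eq_zero_of_nonpos hcon] at h1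
    linarith
  have hsq : 0 < Real.sqrt (v.1 ^ 2 + v.2 ^ 2) := Real.sqrt_pos.2 hq
  rw [← Real.log_sqrt hr.le]
  refine tendsto_log_div (a := c * (Real.sqrt (v.1 ^ 2 + v.2 ^ 2) / 2))
    (b := C * Real.sqrt (v.1 ^ 2 + v.2 ^ 2)) (by positivity) (by positivity)
    (Real.sqrt_pos.2 hr) ?_ ?_
  · intro n
    have h1 := sqrt_le_norm ((B ^ n) v)
    rw [pow_quad h, Real.sqrt_mul (by positivity), sqrt_pow_eq hr.le] at h1
    refine le_trans ?_ (hN _).1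
    have : c * (Real.sqrt (v.1 ^ 2 + v.2 ^ 2) / 2) * Real.sqrt r ^ n =
      c * ((Real.sqrt r ^ n * Real.sqrt (v.1 ^ 2 + v.2 ^ 2)) / 2) := by ring
    rw [this]
    apply mul_le_mul_of_nonneg_left _ hc0.le
    linarith
  · intro n
    have h1 := norm_le_sqrt ((B ^ n) v)
    rw [pow_quad h, Real.sqrt_mul (by positivity), sqrt_pow_eq hr.le] at h1
    refine le_trans (hN _).2 ?_
    rw [mul_assoc]
    apply mul_le_mul_of_nonneg_left _ hC0.le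
    linarith

end Pool.Agent.H576R3
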