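import Mathlib

set_option autoImplicit false

open scoped Manifold ContDiff Topology
open Set Filter

namespace Pool.Agent.H576R3

/-- The lift `(s, t) ↦ (s + sin t / 2, t + sin s / 2)` to the plane. -/
noncomputable def liftF (p : ℝ × ℝ) : ℝ × ℝ :=
  (p.1 + Real.sin p.2 / 2, p.2 + Real.sin p.1 / 2)

lemma liftF_contDiff {n : ℕ∞ω} : ContDiff ℝ n liftF := by
  unfold liftF
  have h1 : ContDiff ℝ n (fun p : ℝ × ℝ => Real.sin p.2) := Real.contDiff_sin.comp contDiff_snd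
  have h2 : ContDiff ℝ n (fun p : ℝ × ℝ => Real.sin p.1) := Real.contDiff_sin.comp contDiff_fst
  exact (contDiff_fst.add (h1.div_const 2)).prodMk (contDiff_snd.add (h2.div_const 2))

lemma abs_sin_sub (a b : ℝ) : |Real.sin a - Real.sin b| ≤ |a - b| := by
  have := Real.lipschitzWith_sin.dist_le_mul a b
  simpa [Real.dist_eq] using this

lemma liftF_approx : ApproximatesLinearOn liftF
    ((ContinuousLinearEquiv.refl ℝ (ℝ × ℝ) : (ℝ × ℝ) ≃L[ℝ] (ℝ × ℝ)) : (ℝ × ℝ) →L[ℝ] (ℝ × ℝ))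
    univ (1 / 2 : NNReal) := by
  intro x _ y _
  simp only [liftF, ContinuousLinearEquiv.coe_coe, ContinuousLinearEquiv.refl_apply]
  have e : ((x.1 + Real.sin x.2 / 2, x.2 + Real.sin x.1 / 2) : ℝ × ℝ)
      - (y.1 + Real.sin y.2 / 2, y.2 + Real.sin y.1 / 2) - (x - y)
      = ((Real.sin x.2 - Real.sin y.2) / 2, (Real.sin x.1 - Real.sin y.1) / 2) := by
    ext <;> simp <;> ring
  rw [e, Prod.norm_def]
  have h1 := abs_sin_sub x.1 y.1
  have h2 := abs_sin_sub x.2 y.2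
  have h3 : |x.1 - y.1| ≤ ‖x - y‖ := by
    have := norm_fst_le (x - y); simpa using this
  have h4 : |x.2 - y.2| ≤ ‖x - y‖ := by
    have := norm_snd_le (x - y); simpa using this
  simp only [Real.norm_eq_abs, abs_div, NNReal.coe_div, NNReal.coe_one, NNReal.coe_ofNat]
  apply max_le
  · rw [abs_of_pos (by norm_num : (0:ℝ) < 2)]; linarith
  · rw [abs_of_pos (by norm_num : (0:ℝ) < 2)]; linarith

lemma half_lt : (1 / 2 : NNReal) <
    ‖(((ContinuousLinearEquiv.refl ℝ (ℝ × ℝ)).symm : (ℝ × ℝ) ≃L[ℝ] (ℝ × ℝ)) :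
      (ℝ × ℝ) →L[ℝ] (ℝ × ℝ))‖₊⁻¹ := by
  have : ‖(((ContinuousLinearEquiv.refl ℝ (ℝ × ℝ)).symm : (ℝ × ℝ) ≃L[ℝ] (ℝ × ℝ)) :
      (ℝ × ℝ) →L[ℝ] (ℝ × ℝ))‖₊ = 1 := by
    have : (((ContinuousLinearEquiv.refl ℝ (ℝ × ℝ)).symm : (ℝ × ℝ) ≃L[ℝ] (ℝ × ℝ)) :
      (ℝ × ℝ) →L[ℝ] (ℝ × ℝ)) = ContinuousLinearMap.id ℝ (ℝ × ℝ) := by
      ext <;> simp
    rw [this]
    ext
    simp
  rw [this, inv_one]
  exact NNReal.half_lt_self one_ne_zero

/-- The lift as a homeomorphism of the plane. -/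
noncomputable def liftH : (ℝ × ℝ) ≃ₜ (ℝ × ℝ) :=
  liftF_approx.toHomeomorph liftF (Or.inr half_lt)

lemma liftH_apply (p : ℝ × ℝ) : liftH p = liftF p := rfl

/-- The derivative of the lift. -/
noncomputable def liftD (p : ℝ × ℝ) : (ℝ × ℝ) →L[ℝ] (ℝ × ℝ) :=
  (ContinuousLinearMap.fst ℝ ℝ ℝ + (Real.cos p.2 / 2) • ContinuousLinearMap.snd ℝ ℝ ℝ).prod
    (ContinuousLinearMap.snd ℝ ℝ ℝ + (Real.cos p.1 / 2) • ContinuousLinearMap.fst ℝ ℝ ℝ)

lemma liftD_apply (p v : ℝ × ℝ) :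
    liftD p v = (v.1 + Real.cos p.2 / 2 * v.2, v.2 + Real.cos p.1 / 2 * v.1) := by
  simp [liftD]

lemma liftF_hasFDerivAt (p : ℝ × ℝ) : HasFDerivAt liftF (liftD p) p := by
  unfold liftF liftD
  have h1 : HasFDerivAt (fun q : ℝ × ℝ => Real.sin q.2 / 2)
      ((Real.cos p.2 / 2) • ContinuousLinearMap.snd ℝ ℝ ℝ) p := by
    have := ((hasFDerivAt_snd (𝕜 := ℝ) (E := ℝ) (F := ℝ) (p := p)).sin).mul_const (2⁻¹ : ℝ)
    simp only [div_eq_mul_inv]
    convert! this using 1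
    rw [smul_smul, mul_comm]
  have h2 : HasFDerivAt (fun q : ℝ × ℝ => Real.sin q.1 / 2)
      ((Real.cos p.1 / 2) • ContinuousLinearMap.fst ℝ ℝ ℝ) p := by
    have := ((hasFDerivAt_fst (𝕜 := ℝ) (E := ℝ) (F := ℝ) (p := p)).sin).mul_const (2⁻¹ : ℝ)
    simp only [div_eq_mul_inv]
    convert! this using 1
    rw [smul_smul, mul_comm]
  exact (hasFDerivAt_fst.add h1).prodMk (hasFDerivAt_snd.add h2)

lemma liftD_injective (p : ℝ × ℝ) : Function.Injective (liftD p) := by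
  rw [injective_iff_map_eq_zero]
  intro v hv
  rw [liftD_apply] at hv
  have h1 : v.1 + Real.cos p.2 / 2 * v.2 = 0 := congrArg Prod.fst hv
  have h2 : v.2 + Real.cos p.1 / 2 * v.1 = 0 := congrArg Prod.snd hv
  have hc1 := Real.cos_le_one p.1
  have hc2 := Real.cos_le_one p.2
  have hd1 := Real.neg_one_le_cos p.1
  have hd2 := Real.neg_one_le_cos p.2
  have h3 : v.1 * (1 - Real.cos p.1 * Real.cos p.2 / 4) = 0 := by
    have : v.2 = - (Real.cos p.1 / 2 * v.1) := by linarith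
    rw [this] at h1
    linarith
  have h4 : (1 - Real.cos p.1 * Real.cos p.2 / 4) ≠ 0 := by
    have : Real.cos p.1 * Real.cos p.2 ≤ 1 := by nlinarith
    intro h
    linarith
  have h5 : v.1 = 0 := by
    rcases mul_eq_zero.1 h3 with h | h
    · exact h
    · exact absurd h h4
  have h6 : v.2 = 0 := by rw [h5] at h2; linarith
  exact Prod.ext h5 h6

/-- The derivative of the lift as an equivalence. -/
noncomputable def liftDE (p : ℝ × ℝ) : (ℝ × ℝ) ≃L[ℝ] (ℝ × ℝ) :=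
  ContinuousLinearEquiv.ofBijective (liftD p)
    (LinearMap.ker_eq_bot.2 (liftD_injective p))
    (LinearMap.range_eq_top.2
      ((LinearMap.injective_iff_surjective (f := (liftD p : (ℝ × ℝ) →ₗ[ℝ] (ℝ × ℝ)))).1
        (liftD_injective p)))

lemma liftH_symm_contDiff {n : ℕ∞ω} : ContDiff ℝ n (liftH.symm : ℝ × ℝ → ℝ × ℝ) := by
  apply Homeomorph.contDiff_symm liftH (f₀' := liftDE)
  · intro a
    exact liftF_hasFDerivAt a
  · exact liftF_contDiff

end Pool.Agent.H576R3
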