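import Pool.Agent.H576R3.OselFix

set_option autoImplicit false

open scoped Manifold ContDiff Topology
open Bundle Set Filter MeasureTheory

namespace Pool.Agent.H576R3

open Defs

attribute [local instance] finrank_real_complex_fact'

lemma sum_finrank {k : ℕ} {V : Fin k → Submodule ℝ E2} (h : DirectSum.IsInternal V) :
    ∑ i, Module.finrank ℝ (V i) = 2 := by
  have e := (LinearEquiv.ofBijective (DirectSum.coeLinearMap V) h).finrank_eq
  rw [Module.finrank_directSum] at e
  rw [e]
  simp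

lemma pos_sum_ge {k : ℕ} {V : Fin k → Submodule ℝ E2} {χ : Fin k → ℝ} {c : ℝ}
    (hc : 0 ≤ c) (i : Fin k) (hi : c ≤ χ i) {u : E2} (hu : u ∈ V i) (h0 : u ≠ 0) :
    c ≤ ∑ i, max (χ i) 0 * (Module.finrank ℝ (V i) : ℝ) := by
  have h1 : max (χ i) 0 * (Module.finrank ℝ (V i) : ℝ) ≤
      ∑ i, max (χ i) 0 * (Module.finrank ℝ (V i) : ℝ) :=
    Finset.single_le_sum (f := fun i => max (χ i) 0 * (Module.finrank ℝ (V i) : ℝ))
      (fun j _ => mul_nonneg (le_max_right _ _) (Nat.cast_nonneg _)) (Finset.mem_univ i)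
  have h2 : 0 < Module.finrank ℝ (V i) := by
    rw [Module.finrank_pos_iff_exists_ne_zero]
    exact ⟨⟨u, hu⟩, fun h => h0 (congrArg Subtype.val h)⟩
  have h3 : (1 : ℝ) ≤ (Module.finrank ℝ (V i) : ℝ) := by exact_mod_cast h2
  have h4 : c ≤ max (χ i) 0 := hi.trans (le_max_left _ _)
  calc c = c * 1 := (mul_one c).symm
    _ ≤ max (χ i) 0 * (Module.finrank ℝ (V i) : ℝ) := mul_le_mul h4 h3 zero_le_one (hc.trans h4)
    _ ≤ _ := h1

lemma decay {s : ℕ → ℝ} {L r : ℝ} (hr : 0 < r) (hs : ∀ n, 0 < s n)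
    (h : Tendsto (fun n : ℕ => Real.log (s n) / n) atTop (𝓝 L)) (hL : L < Real.log r) :
    Tendsto (fun n => s n / r ^ n) atTop (𝓝 0) := by
  set a := (L + Real.log r) / 2 with ha
  have h1 : L < a := by rw [ha]; linarith
  have h2 : a < Real.log r := by rw [ha]; linarith
  have h3 : ∀ᶠ n : ℕ in atTop, Real.log (s n) / n < a := h.eventually (gt_mem_nhds h1)
  have hq : Real.exp a / r < 1 := by
    rw [div_lt_one hr, ← Real.lt_log_iff_exp_lt hr]
    exact h2
  have hq0 : 0 ≤ Real.exp a / r := by positivity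
  have h4 : Tendsto (fun n : ℕ => (Real.exp a / r) ^ n) atTop (𝓝 0) :=
    tendsto_pow_atTop_nhds_zero_of_lt_one hq0 hq
  refine squeeze_zero' (Eventually.of_forall fun n => by have := hs n; positivity) ?_ h4
  filter_upwards [h3, eventually_gt_atTop 0] with n hn hn0
  have hn' : (0 : ℝ) < n := by exact_mod_cast hn0
  rw [div_lt_iff₀ hn'] at hn
  have h5 : s n < Real.exp (a * n) := (Real.log_lt_iff_lt_exp (hs n)).1 hn
  rw [div_pow]
  apply div_le_div_of_nonneg_right _ (by positivity)
  rw [← Real.exp_nat_mul, mul_comm (n : ℝ) a]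
  exact h5.le

variable {W : Type*} [NormedAddCommGroup W] [NormedSpace ℝ W] {F : Circle × Circle → W}
  (hF : IsImmersion ((𝓡 1).prod (𝓡 1)) F)

include hF

/-- lower bound at the sources -/
lemma chiPlus_source {p : ℝ × ℝ} (hp : IsFix p) (hs : Real.cos p.2 = -Real.cos p.1)
    {s : ℝ} (h : IsChiPlus ((𝓡 1).prod (𝓡 1)) F torF torG (cov p) s) :
    Real.log (5 / 4) ≤ s := by
  obtain ⟨k, V, χ, hO, rfl⟩ := h
  let V' : Fin k → Submodule ℝ E2 := V
  have hterm : ∀ i, max (χ i) 0 * (Module.finrank ℝ (V' i) : ℝ) =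
      Real.log (5 / 4) / 2 * (Module.finrank ℝ (V' i) : ℝ) := by
    intro i
    by_cases hV : V' i = ⊥
    · rw [hV]; simp
    · obtain ⟨u, hu, h0⟩ := Submodule.exists_mem_ne_zero_of_ne_bot hV
      have h1 : Tendsto (growth ((𝓡 1).prod (𝓡 1)) F torF (cov p) u) atTop (𝓝 (χ i)) :=
        hO.forward i u hu h0
      have h2 := source_forward hp hs hF h0
      rw [tendsto_nhds_unique h1 h2, max_eq_left]
      have : 0 ≤ Real.log (5 / 4) := Real.log_nonneg (by norm_num)
      positivity
  have h3 : ∑ i, max (χ i) 0 * (Module.finrank ℝ (V' i) : ℝ) =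
      Real.log (5 / 4) / 2 * ((∑ i, Module.finrank ℝ (V' i) : ℕ) : ℝ) := by
    rw [Nat.cast_sum, Finset.mul_sum]
    exact Finset.sum_congr rfl fun i _ => hterm i
  have h4 : ∑ i, Module.finrank ℝ (V' i) = 2 := sum_finrank hO.internal
  rw [h4] at h3
  refine le_of_eq ?_
  refine Eq.trans ?_ h3.symm
  push_cast
  ring

/-- lower bound at the saddles -/
lemma chiPlus_saddle {p : ℝ × ℝ} (hp : IsFix p) (hs : Real.cos p.2 = Real.cos p.1)
    {s : ℝ} (h : IsChiPlus ((𝓡 1).prod (𝓡 1)) F torF torG (cov p) s) :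
    Real.log (3 / 2) ≤ s := by
  obtain ⟨k, V, χ, hO, rfl⟩ := h
  let V' : Fin k → Submodule ℝ E2 := V
  obtain ⟨c, C, hc, hC, hN⟩ := NN_comparison hF p
  have htop : (⨆ i, V' i) = ⊤ := DirectSum.IsInternal.submodule_iSup_eq_top hO.internal
  have hmem : covD p (1, Real.cos p.1) ∈ ⨆ i, V' i := by rw [htop]; trivial
  obtain ⟨f, hf, hfs⟩ := (Submodule.mem_iSup_iff_exists_finsupp V' _).1 hmem
  suffices hex : ∃ i ∈ f.support, Real.log (3 / 2) ≤ χ i by
    obtain ⟨i, hi, hχ⟩ := hex
    exact pos_sum_ge (V := V') (Real.log_nonneg (by norm_num)) i hχ (hf i)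
      (Finsupp.mem_support_iff.1 hi)
  by_contra hcon
  push Not at hcon
  choose w hw using covD_surjective p
  have hdec : ∀ i ∈ f.support,
      Tendsto (fun n => ‖(liftD p ^ n) (w (f i))‖ / (3 / 2) ^ n) atTop (𝓝 0) := by
    intro i hi
    have h0 : f i ≠ 0 := Finsupp.mem_support_iff.1 hi
    have h1 : Tendsto (growth ((𝓡 1).prod (𝓡 1)) F torF (cov p) (f i)) atTop (𝓝 (χ i)) :=
      hO.forward i (f i) (hf i) h0
    rw [← hw (f i), fwd_eq hF hp] at h1
    have hpos : ∀ n, 0 < NN F p ((liftD p ^ n) (w (f i))) := by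
      intro n
      apply NN_pos hF
      intro h
      apply h0
      rw [← hw (f i)]
      have hinj : Function.Injective (liftD p ^ n) := by
        have : ∀ m : ℕ, Function.Injective (⇑(liftD p ^ m)) := by
          intro m
          induction m with
          | zero => exact fun a b hab => hab
          | succ m ih =>
            intro a b hab
            rw [pow_succ, mul_apply_eq_comp, mul_apply_eq_comp] at hab
            exact liftD_injective p (ih hab)
        exact this n
      have h9 : w (f i) = 0 := hinj (by rw [h, map_zero])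
      rw [h9, map_zero]
    have h2 := decay (r := 3 / 2) (by norm_num) hpos h1 (hcon i hi)
    have h3 : Tendsto (fun n => (1 / c) * (NN F p ((liftD p ^ n) (w (f i))) / (3 / 2) ^ n)) atTop
        (𝓝 0) := by
      have := h2.const_mul (1 / c)
      simpa using this
    refine squeeze_zero (fun n => by positivity) (fun n => ?_) h3
    have h4 := (hN ((liftD p ^ n) (w (f i)))).1
    rw [← mul_div_assoc]
    apply div_le_div_of_nonneg_right _ (by positivity)
    rw [one_div, ← div_eq_inv_mul, le_div_iff₀ hc, mul_comm]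
    exact h4
  have hsum : ((1, Real.cos p.1) : ℝ × ℝ) = ∑ i ∈ f.support, w (f i) := by
    apply covD_injective p
    rw [map_sum]
    simp only [hw]
    exact hfs.symm
  have hlim : Tendsto (fun n : ℕ => ∑ i ∈ f.support, ‖(liftD p ^ n) (w (f i))‖ / (3 / 2) ^ n) atTop
      (𝓝 0) := by
    have := tendsto_finsetSum f.support hdec
    simpa using this
  have hge : ∀ n : ℕ, 1 ≤ ∑ i ∈ f.support, ‖(liftD p ^ n) (w (f i))‖ / (3 / 2) ^ n := by
    intro n
    rw [← Finset.sum_div, le_div_iff₀ (by positivity), one_mul]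
    calc ((3 / 2 : ℝ)) ^ n ≤ (3 / 2) ^ n * ‖((1, Real.cos p.1) : ℝ × ℝ)‖ := by
          have : (1 : ℝ) ≤ ‖((1, Real.cos p.1) : ℝ × ℝ)‖ := by
            rw [Prod.norm_def]
            simp
          exact le_mul_of_one_le_right (by positivity) this
      _ = ‖(liftD p ^ n) (1, Real.cos p.1)‖ := by
          rw [pow_eigen (saddle_plus hp hs), norm_smul, norm_pow]
          norm_num
      _ = ‖∑ i ∈ f.support, (liftD p ^ n) (w (f i))‖ := by rw [hsum, map_sum]
      _ ≤ _ := norm_sum_le _ _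
  have := le_of_tendsto_of_tendsto' tendsto_const_nhds hlim hge
  norm_num at this

lemma chiPlus_ge {x : Circle × Circle} (hx : x ∈ fixSet) {s : ℝ}
    (h : IsChiPlus ((𝓡 1).prod (𝓡 1)) F torF torG x s) : Real.log (5 / 4) ≤ s := by
  obtain ⟨p, rfl, hp⟩ := exists_isFix hx
  rcases hp.cases with hs | hs
  · exact (Real.log_le_log (by norm_num) (by norm_num)).trans (chiPlus_saddle hF hp hs h)
  · exact chiPlus_source hF hp hs h

lemma exists_chiPlus {x : Circle × Circle} (hx : x ∈ fixSet) :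
    ∃ s, IsChiPlus ((𝓡 1).prod (𝓡 1)) F torF torG x s := by
  obtain ⟨p, rfl, hp⟩ := exists_isFix hx
  rcases hp.cases with hs | hs
  · exact exists_oseledets_saddle hF hp hs
  · exact exists_oseledets_source hp hs hF

end Pool.Agent.H576R3
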