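import Pool.Agent.H576R3.Dyn

set_option autoImplicit false

open scoped Manifold ContDiff Topology
open Set Filter MeasureTheory

namespace Pool.Agent.H576R3

/-- A bounded measurable function that does not increase along the orbits is constant along almost
every orbit of a map preserving a finite measure. -/
lemma ae_eq_of_comp_le {X : Type*} [MeasurableSpace X] {μ : Measure X} [IsFiniteMeasure μ]
    {f : X → X} (hf : MeasurePreserving f μ μ) {u : X → ℝ} (hu : Measurable u) {C : ℝ}
    (hC : ∀ x, |u x| ≤ C) (hle : ∀ x, u (f x) ≤ u x) : ∀ᵐ x ∂μ, u (f x) = u x := by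
  have hint : Integrable u μ := by
    refine Integrable.of_bound hu.aestronglyMeasurable C (Eventually.of_forall fun x => ?_)
    simpa using hC x
  have hint2 : Integrable (fun x => u (f x)) μ := by
    refine Integrable.of_bound (hu.comp hf.measurable).aestronglyMeasurable C
      (Eventually.of_forall fun x => ?_)
    simpa using hC (f x)
  have h1 : ∫ x, u (f x) ∂μ = ∫ x, u x ∂μ := by
    have := integral_map (μ := μ) (f := u) hf.measurable.aemeasurable
      (by rw [hf.map_eq]; exact hu.aestronglyMeasurable)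
    rw [hf.map_eq] at this
    exact this.symm
  have h2 : ∫ x, (u x - u (f x)) ∂μ = 0 := by
    rw [integral_sub hint hint2, h1, sub_self]
  have h3 := (integral_eq_zero_iff_of_nonneg (fun x => sub_nonneg.2 (hle x))
    (hint.sub hint2)).1 h2
  filter_upwards [h3] with x hx
  have : u x - u (f x) = 0 := hx
  linarith

lemma cont_coe : Continuous (fun z : Circle => (z : ℂ)) := continuous_subtype_val

lemma continuous_en : Continuous en := by
  unfold en
  have h1 : Continuous (fun x : Circle × Circle => (x.2 : ℂ).re) :=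
    Complex.continuous_re.comp (cont_coe.comp continuous_snd)
  have h2 : Continuous (fun x : Circle × Circle => (x.1 : ℂ).re) :=
    Complex.continuous_re.comp (cont_coe.comp continuous_fst)
  exact h1.sub h2

lemma abs_re_le (z : Circle) : |(z : ℂ).re| ≤ 1 := by
  have := Complex.abs_re_le_norm (z : ℂ)
  rwa [Circle.norm_coe] at this

lemma abs_en_le (x : Circle × Circle) : |en x| ≤ 2 := by
  have h1 := abs_re_le x.1
  have h2 := abs_re_le x.2
  have := abs_sub (x.2 : ℂ).re (x.1 : ℂ).re
  unfold en
  linarith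

open scoped Classical in
/-- The second Lyapunov function, on the heteroclinic net. -/
noncomputable def uu (x : Circle × Circle) : ℝ :=
  if x.1 = x.2 then (x.1 : ℂ).re else if x.2 = x.1⁻¹ then -(x.1 : ℂ).re else 0

lemma inv_im (z : Circle) : ((z⁻¹ : Circle) : ℂ).im = -(z : ℂ).im := by
  rw [Circle.coe_inv_eq_conj]; simp

lemma inv_re (z : Circle) : ((z⁻¹ : Circle) : ℂ).re = (z : ℂ).re := by
  rw [Circle.coe_inv_eq_conj]; simp

lemma im_eq_zero_of_inv_eq {z : Circle} (h : z = z⁻¹) : (z : ℂ).im = 0 := by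
  have h1 := inv_im z
  rw [← h] at h1
  linarith

lemma re_eq_iff {z w : Circle} (h : (z : ℂ).re = (w : ℂ).re) : z = w ∨ w = z⁻¹ := by
  have hz : (z : ℂ).re ^ 2 + (z : ℂ).im ^ 2 = 1 := by
    have := Circle.normSq_coe z
    rw [Complex.normSq_apply] at this
    linarith
  have hw : (w : ℂ).re ^ 2 + (w : ℂ).im ^ 2 = 1 := by
    have := Circle.normSq_coe w
    rw [Complex.normSq_apply] at this
    linarith
  have : (z : ℂ).im ^ 2 = (w : ℂ).im ^ 2 := by rw [h] at hz; linarith
  rcases sq_eq_sq_iff_eq_or_eq_neg.1 this with h1 | h1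
  · left
    exact Circle.ext (Complex.ext h h1)
  · right
    apply Circle.ext
    apply Complex.ext
    · rw [inv_re, h]
    · rw [inv_im, h1, neg_neg]

lemma torF_diag {x : Circle × Circle} (h : x.1 = x.2) : (torF x).1 = (torF x).2 := by
  simp only [torF, h]

lemma torF_anti {x : Circle × Circle} (h : x.2 = x.1⁻¹) : (torF x).2 = (torF x).1⁻¹ := by
  simp only [torF, h, inv_im, mul_inv, ← Circle.exp_neg]
  congr 2
  ring

lemma en_eq_zero_iff {x : Circle × Circle} : en x = 0 ↔ x.1 = x.2 ∨ x.2 = x.1⁻¹ := by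
  constructor
  · intro h
    exact re_eq_iff (by unfold en at h; linarith)
  · rintro (h | h)
    · simp [en, h]
    · unfold en; rw [h, inv_re, sub_self]

lemma uu_torF_diag {x : Circle × Circle} (h : x.1 = x.2) :
    uu (torF x) ≤ uu x ∧ (uu (torF x) = uu x → x ∈ fixSet) := by
  have e1 : uu x = (x.1 : ℂ).re := by simp [uu, h]
  have e2 : uu (torF x) = ((torF x).1 : ℂ).re := by simp only [uu, torF_diag h, if_true]
  obtain ⟨p, hp⟩ : ∃ p : ℝ, Circle.exp p = x.1 := ⟨_, Circle.exp_arg x.1⟩
  have e3 : ((torF x).1 : ℂ).re = Real.cos (p + 1 * Real.sin p / 2) := by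
    simp only [torF, ← h, ← hp, exp_im, ← Circle.exp_add, exp_re, one_mul]
  rw [e1, e2, e3, ← hp, exp_re]
  by_cases hs : Real.sin p = 0
  · refine ⟨by simp [hs], fun _ => ?_⟩
    constructor
    · rw [← hp, exp_im, hs]
    · rw [← h, ← hp, exp_im, hs]
  · have := cos_add_lt hs (Or.inl rfl)
    simp only [one_mul] at this ⊢
    exact ⟨this.le, fun h => absurd h this.ne⟩

lemma uu_torF_anti {x : Circle × Circle} (h : x.2 = x.1⁻¹) (h' : x.1 ≠ x.2) :
    uu (torF x) ≤ uu x ∧ (uu (torF x) = uu x → x ∈ fixSet) := by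
  have hF : (torF x).1 ≠ (torF x).2 := by
    intro hc
    have h2 := torF_anti h
    have h3 : (torF x).1 = (torF x).1⁻¹ := by rw [← h2]; exact hc
    have h4 : torF x ∈ fixSet := by
      constructor
      · exact im_eq_zero_of_inv_eq h3
      · rw [← hc]; exact im_eq_zero_of_inv_eq h3
    have h5 := torF_fix (torF_mem_fix_iff.1 h4)
    rw [h5] at hc
    exact h' hc
  have e1 : uu x = -(x.1 : ℂ).re := by
    unfold uu
    rw [if_neg h', if_pos h]
  have e2 : uu (torF x) = -((torF x).1 : ℂ).re := by
    unfold uu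
    rw [if_neg hF, if_pos (torF_anti h)]
  obtain ⟨p, hp⟩ : ∃ p : ℝ, Circle.exp p = x.1 := ⟨_, Circle.exp_arg x.1⟩
  have e3 : ((torF x).1 : ℂ).re = Real.cos (p + -1 * Real.sin p / 2) := by
    have h7 : (x.2 : ℂ).im = -1 * Real.sin p := by
      rw [h, inv_im, ← hp, exp_im]; ring
    simp only [torF, h7, ← hp, ← Circle.exp_add, exp_re]
  rw [e1, e2, e3, ← hp, exp_re]
  by_cases hs : Real.sin p = 0
  · refine ⟨by simp [hs], fun _ => ?_⟩
    constructor
    · rw [← hp, exp_im, hs]
    · rw [h, inv_im, ← hp, exp_im, hs, neg_zero]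
  · have := cos_add_lt hs (Or.inr rfl)
    constructor
    · linarith
    · intro h; exfalso; linarith

lemma uu_torF_other {x : Circle × Circle} (h : en x ≠ 0) : uu (torF x) = uu x := by
  have h1 : en (torF x) ≠ 0 := by
    obtain ⟨r, hr, _, h2, _⟩ := en_torF x
    rw [h2]
    exact mul_ne_zero hr.ne' h
  rw [Ne, en_eq_zero_iff, not_or] at h h1
  simp only [uu, h.1, h.2, h1.1, h1.2, if_false]

variable [MeasurableSpace (Circle × Circle)] [BorelSpace (Circle × Circle)]

lemma measurable_uu : Measurable uu := by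
  unfold uu
  have h1 : Measurable (fun x : Circle × Circle => (x.1 : ℂ).re) :=
    (Complex.continuous_re.comp (cont_coe.comp continuous_fst)).measurable
  have hs1 : MeasurableSet {x : Circle × Circle | x.1 = x.2} :=
    (isClosed_eq continuous_fst continuous_snd).measurableSet
  have hs2 : MeasurableSet {x : Circle × Circle | x.2 = x.1⁻¹} :=
    (isClosed_eq continuous_snd (continuous_fst.inv)).measurableSet
  exact Measurable.ite hs1 h1 (Measurable.ite hs2 h1.neg measurable_const)

lemma abs_uu_le (x : Circle × Circle) : |uu x| ≤ 1 := by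
  unfold uu
  split_ifs
  · exact abs_re_le x.1
  · rw [abs_neg]; exact abs_re_le x.1
  · simp

/-- Every invariant probability measure is carried by the four fixed points. -/
theorem ae_mem_fixSet {ρ : Measure (Circle × Circle)} [IsProbabilityMeasure ρ]
    (h : MeasurePreserving torF ρ ρ) : ∀ᵐ x ∂ρ, x ∈ fixSet := by
  have h1 : ∀ᵐ x ∂ρ, |en (torF x)| = |en x| := by
    refine ae_eq_of_comp_le h (u := fun x => |en x|) (continuous_en.abs.measurable) (C := 2)
      (fun x => by rw [abs_abs]; exact abs_en_le x) (fun x => ?_)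
    obtain ⟨r, hr0, hr1, h2, _⟩ := en_torF x
    rw [h2, abs_mul, abs_of_pos hr0]
    exact mul_le_of_le_one_left (abs_nonneg _) hr1
  have h2 : ∀ᵐ x ∂ρ, uu (torF x) = uu x := by
    refine ae_eq_of_comp_le h (u := uu) measurable_uu (C := 1) abs_uu_le (fun x => ?_)
    by_cases hx : en x = 0
    · by_cases hx1 : x.1 = x.2
      · exact (uu_torF_diag hx1).1
      · exact (uu_torF_anti ((en_eq_zero_iff.1 hx).resolve_left hx1) hx1).1
    · exact (uu_torF_other hx).le
  filter_upwards [h1, h2] with x hx1 hx2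
  by_cases hx : en x = 0
  · by_cases hx3 : x.1 = x.2
    · exact (uu_torF_diag hx3).2 hx2
    · exact (uu_torF_anti ((en_eq_zero_iff.1 hx).resolve_left hx3) hx3).2 hx2
  · obtain ⟨r, hr0, hr1, h2, h3⟩ := en_torF x
    apply h3
    rw [h2, abs_mul, abs_of_pos hr0] at hx1
    have h4 : 0 < |en x| := abs_pos.2 hx
    have h5 : r * |en x| = 1 * |en x| := by rw [hx1, one_mul]
    exact mul_right_cancel₀ h4.ne' h5

end Pool.Agent.H576R3
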