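import Pool.Agent.H576R3.Meas
import Pool.Agent.H576R3.EntZero
import Pool.Agent.H576R3.Growth

set_option autoImplicit false

open scoped Manifold ContDiff Topology
open Bundle Set Filter MeasureTheory

namespace Pool.Agent.H576R3

open Defs

attribute [local instance] finrank_real_complex_fact'

/-- The model space of the torus. -/
abbrev E2 := EuclideanSpace ℝ (Fin 1) × EuclideanSpace ℝ (Fin 1)

/-- The derivative of the covering map, with values in the model space. -/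
noncomputable def covD (q : ℝ × ℝ) : (ℝ × ℝ) →L[ℝ] E2 :=
  mfderiv 𝓘(ℝ, ℝ × ℝ) ((𝓡 1).prod (𝓡 1)) cov q

lemma mdiff_cov : MDifferentiable 𝓘(ℝ, ℝ × ℝ) ((𝓡 1).prod (𝓡 1)) cov :=
  (contMDiff_cov (m := 1)).mdifferentiable one_ne_zero

section

variable {W : Type*} [NormedAddCommGroup W] [NormedSpace ℝ W]

lemma mf_chain {G : Circle × Circle → W}
    (hG : MDifferentiable ((𝓡 1).prod (𝓡 1)) 𝓘(ℝ, W) G) (p v : ℝ × ℝ) :
    (mvfderiv ((𝓡 1).prod (𝓡 1)) G (cov p) : E2 →L[ℝ] W) (covD p v) =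
      fderiv ℝ (G ∘ cov) p v := by
  have e1 := mfderiv_comp p (hG (cov p)) (mdiff_cov p)
  have e2 : (mfderiv 𝓘(ℝ, ℝ × ℝ) 𝓘(ℝ, W) (G ∘ cov) p) v = fderiv ℝ (G ∘ cov) p v := by
    rw [mfderiv_eq_fderiv]
    rfl
  rw [← e2, e1]
  rfl

lemma mf_iter {F : Circle × Circle → W}
    (hF : MDifferentiable ((𝓡 1).prod (𝓡 1)) 𝓘(ℝ, W) F) {T : Circle × Circle → Circle × Circle}
    (hT : MDifferentiable ((𝓡 1).prod (𝓡 1)) ((𝓡 1).prod (𝓡 1)) T) {h : ℝ × ℝ → ℝ × ℝ}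
    (hsc : Function.Semiconj cov h T) {p : ℝ × ℝ} (hp : h p = p)
    {B : (ℝ × ℝ) →L[ℝ] (ℝ × ℝ)} (hB : HasFDerivAt h B p) (n : ℕ) (v : ℝ × ℝ) :
    (mvfderiv ((𝓡 1).prod (𝓡 1)) (F ∘ T^[n]) (cov p) : E2 →L[ℝ] W) (covD p v) =
      fderiv ℝ (F ∘ cov) p ((B ^ n) v) := by
  have hTn : MDifferentiable ((𝓡 1).prod (𝓡 1)) ((𝓡 1).prod (𝓡 1)) (T^[n]) := by
    induction n with
    | zero => exact mdifferentiable_id
    | succ n ih => exact ih.comp hT
  have hn : HasFDerivAt (h^[n]) (B ^ n) p := hB.iterate hp n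
  have hpn : h^[n] p = p := Function.iterate_fixed hp n
  have e : (F ∘ T^[n]) ∘ cov = (F ∘ cov) ∘ h^[n] := by
    funext q
    exact congrArg F ((hsc.iterate_right n) q).symm
  rw [mf_chain (hF.comp hTn), e]
  have hFc : DifferentiableAt ℝ (F ∘ cov) (h^[n] p) :=
    ((hF.comp mdiff_cov) (h^[n] p)).differentiableAt
  rw [fderiv_comp p hFc hn.differentiableAt, hn.fderiv, hpn]
  rfl

end

lemma covD_injective (p : ℝ × ℝ) : Function.Injective (covD p) := by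
  rw [injective_iff_map_eq_zero]
  intro v hv
  let ι : Circle × Circle → ℂ × ℂ := fun x => ((x.1 : ℂ), (x.2 : ℂ))
  have hι : MDifferentiable ((𝓡 1).prod (𝓡 1)) 𝓘(ℝ, ℂ × ℂ) ι := by
    have h1 : ContMDiff ((𝓡 1).prod (𝓡 1)) 𝓘(ℝ, ℂ) 1 (fun x : Circle × Circle => (x.1 : ℂ)) :=
      contMDiff_coe.comp contMDiff_fst
    have h2 : ContMDiff ((𝓡 1).prod (𝓡 1)) 𝓘(ℝ, ℂ) 1 (fun x : Circle × Circle => (x.2 : ℂ)) :=
      contMDiff_coe.comp contMDiff_snd
    exact (h1.prodMk_space h2).mdifferentiable one_ne_zero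
  have e2 : fderiv ℝ (ι ∘ cov) p v = 0 := by
    rw [← mf_chain hι, hv]
    exact map_zero _
  have e3 : HasFDerivAt (ι ∘ cov)
      (((Complex.exp (p.1 * Complex.I)) • (Complex.I • (Complex.ofRealCLM.comp
        (ContinuousLinearMap.fst ℝ ℝ ℝ)))).prod
       ((Complex.exp (p.2 * Complex.I)) • (Complex.I • (Complex.ofRealCLM.comp
        (ContinuousLinearMap.snd ℝ ℝ ℝ))))) p := by
    have h1 : HasFDerivAt (fun q : ℝ × ℝ => ((q.1 : ℝ) : ℂ) * Complex.I)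
        (Complex.I • (Complex.ofRealCLM.comp (ContinuousLinearMap.fst ℝ ℝ ℝ))) p := by
      have := (Complex.ofRealCLM.comp (ContinuousLinearMap.fst ℝ ℝ ℝ)).hasFDerivAt (x := p)
      exact this.mul_const Complex.I
    have h2 : HasFDerivAt (fun q : ℝ × ℝ => ((q.2 : ℝ) : ℂ) * Complex.I)
        (Complex.I • (Complex.ofRealCLM.comp (ContinuousLinearMap.snd ℝ ℝ ℝ))) p := by
      have := (Complex.ofRealCLM.comp (ContinuousLinearMap.snd ℝ ℝ ℝ)).hasFDerivAt (x := p)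
      exact this.mul_const Complex.I
    exact h1.cexp.prodMk h2.cexp
  rw [e3.fderiv] at e2
  have e4 : Complex.exp (p.1 * Complex.I) * (Complex.I * ((v.1 : ℝ) : ℂ)) = 0 :=
    congrArg Prod.fst e2
  have e5 : Complex.exp (p.2 * Complex.I) * (Complex.I * ((v.2 : ℝ) : ℂ)) = 0 :=
    congrArg Prod.snd e2
  have e6 : v.1 = 0 := by simpa using e4
  have e7 : v.2 = 0 := by simpa using e5
  exact Prod.ext e6 e7

lemma covD_surjective (p : ℝ × ℝ) : Function.Surjective (covD p) := by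
  have hd : Module.finrank ℝ (ℝ × ℝ) = Module.finrank ℝ E2 := by
    simp
  exact (LinearMap.injective_iff_surjective_of_finrank_eq_finrank
    (f := (covD p : (ℝ × ℝ) →ₗ[ℝ] E2)) hd).1 (covD_injective p)

/-- The standard embedding of the torus is an immersion. -/
lemma isImmersion_incl : IsImmersion ((𝓡 1).prod (𝓡 1))
    (fun x : Circle × Circle => (((x.1 : ℂ), (x.2 : ℂ)) : ℂ × ℂ)) := by
  have hs : ContMDiff ((𝓡 1).prod (𝓡 1)) 𝓘(ℝ, ℂ × ℂ) 1
      (fun x : Circle × Circle => (((x.1 : ℂ), (x.2 : ℂ)) : ℂ × ℂ)) := by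
    have h1 : ContMDiff ((𝓡 1).prod (𝓡 1)) 𝓘(ℝ, ℂ) 1 (fun x : Circle × Circle => (x.1 : ℂ)) :=
      contMDiff_coe.comp contMDiff_fst
    have h2 : ContMDiff ((𝓡 1).prod (𝓡 1)) 𝓘(ℝ, ℂ) 1 (fun x : Circle × Circle => (x.2 : ℂ)) :=
      contMDiff_coe.comp contMDiff_snd
    exact h1.prodMk_space h2
  refine ⟨hs, fun x => ?_⟩
  obtain ⟨p, rfl⟩ := cov_surjective x
  rw [injective_iff_map_eq_zero]
  intro u hu
  obtain ⟨v, rfl⟩ := covD_surjective p u
  have e0 := mf_chain (hs.mdifferentiable one_ne_zero) p v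
  rw [show (mvfderiv ((𝓡 1).prod (𝓡 1))
    (fun x : Circle × Circle => (((x.1 : ℂ), (x.2 : ℂ)) : ℂ × ℂ)) (cov p) : E2 →L[ℝ] (ℂ × ℂ))
    (covD p v) = 0 from hu] at e0
  have e3 : HasFDerivAt ((fun x : Circle × Circle => (((x.1 : ℂ), (x.2 : ℂ)) : ℂ × ℂ)) ∘ cov)
      (((Complex.exp (p.1 * Complex.I)) • (Complex.I • (Complex.ofRealCLM.comp
        (ContinuousLinearMap.fst ℝ ℝ ℝ)))).prod
       ((Complex.exp (p.2 * Complex.I)) • (Complex.I • (Complex.ofRealCLM.comp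
        (ContinuousLinearMap.snd ℝ ℝ ℝ))))) p := by
    have h1 : HasFDerivAt (fun q : ℝ × ℝ => ((q.1 : ℝ) : ℂ) * Complex.I)
        (Complex.I • (Complex.ofRealCLM.comp (ContinuousLinearMap.fst ℝ ℝ ℝ))) p := by
      have := (Complex.ofRealCLM.comp (ContinuousLinearMap.fst ℝ ℝ ℝ)).hasFDerivAt (x := p)
      exact this.mul_const Complex.I
    have h2 : HasFDerivAt (fun q : ℝ × ℝ => ((q.2 : ℝ) : ℂ) * Complex.I)
        (Complex.I • (Complex.ofRealCLM.comp (ContinuousLinearMap.snd ℝ ℝ ℝ))) p := by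
      have := (Complex.ofRealCLM.comp (ContinuousLinearMap.snd ℝ ℝ ℝ)).hasFDerivAt (x := p)
      exact this.mul_const Complex.I
    exact h1.cexp.prodMk h2.cexp
  rw [e3.fderiv] at e0
  have e4 : Complex.exp (p.1 * Complex.I) * (Complex.I * ((v.1 : ℝ) : ℂ)) = 0 :=
    (congrArg Prod.fst e0).symm
  have e5 : Complex.exp (p.2 * Complex.I) * (Complex.I * ((v.2 : ℝ) : ℂ)) = 0 :=
    (congrArg Prod.snd e0).symm
  have e6 : v.1 = 0 := by simpa using e4
  have e7 : v.2 = 0 := by simpa using e5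
  have e8 : v = 0 := Prod.ext e6 e7
  rw [e8]
  exact map_zero _

end Pool.Agent.H576R3
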