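import Pool.Agent.H576R3.Fix

set_option autoImplicit false

open scoped Manifold ContDiff Topology
open Bundle Set Filter MeasureTheory

namespace Pool.Agent.H576R3

open Defs

attribute [local instance] finrank_real_complex_fact'

variable {W : Type*} [NormedAddCommGroup W] [NormedSpace ℝ W]

lemma invD_liftD (p v : ℝ × ℝ) : invD p (liftD p v) = v :=
  (liftDE p).symm_apply_apply v

lemma liftD_invD (p v : ℝ × ℝ) : liftD p (invD p v) = v :=
  (liftDE p).apply_symm_apply v

lemma IsFix.sq_cos {p : ℝ × ℝ} (hp : IsFix p) : Real.cos p.1 ^ 2 = 1 ∧ Real.cos p.2 ^ 2 = 1 := by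
  have h1 := Real.sin_sq_add_cos_sq p.1
  have h2 := Real.sin_sq_add_cos_sq p.2
  rw [hp.1] at h1
  rw [hp.2] at h2
  constructor
  · linarith
  · linarith

lemma IsFix.cases {p : ℝ × ℝ} (hp : IsFix p) :
    Real.cos p.2 = Real.cos p.1 ∨ Real.cos p.2 = - Real.cos p.1 := by
  have := hp.sq_cos
  exact sq_eq_sq_iff_eq_or_eq_neg.1 (by rw [this.1, this.2])

section Saddle

variable {p : ℝ × ℝ} (hp : IsFix p) (hs : Real.cos p.2 = Real.cos p.1)

include hp hs

lemma saddle_plus : liftD p (1, Real.cos p.1) = (3 / 2 : ℝ) • (1, Real.cos p.1) := by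
  have h := hp.sq_cos.1
  rw [liftD_apply, hs]
  ext
  · simp only [Prod.smul_mk, smul_eq_mul]
    nlinarith
  · simp only [Prod.smul_mk, smul_eq_mul]
    ring

lemma saddle_minus : liftD p (1, -Real.cos p.1) = (1 / 2 : ℝ) • (1, -Real.cos p.1) := by
  have h := hp.sq_cos.1
  rw [liftD_apply, hs]
  ext
  · simp only [Prod.smul_mk, smul_eq_mul]
    nlinarith
  · simp only [Prod.smul_mk, smul_eq_mul]
    ring

lemma saddle_plus_inv : invD p (1, Real.cos p.1) = (2 / 3 : ℝ) • (1, Real.cos p.1) := by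
  have h := saddle_plus hp hs
  have h2 : ((1, Real.cos p.1) : ℝ × ℝ) = (2 / 3 : ℝ) • liftD p (1, Real.cos p.1) := by
    rw [h, smul_smul]; norm_num
  conv_lhs => rw [h2]
  rw [map_smul, invD_liftD]

lemma saddle_minus_inv : invD p (1, -Real.cos p.1) = (2 : ℝ) • (1, -Real.cos p.1) := by
  have h := saddle_minus hp hs
  have h2 : ((1, -Real.cos p.1) : ℝ × ℝ) = (2 : ℝ) • liftD p (1, -Real.cos p.1) := by
    rw [h, smul_smul]; norm_num
  conv_lhs => rw [h2]
  rw [map_smul, invD_liftD]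

end Saddle

lemma eigen_smul {B : (ℝ × ℝ) →L[ℝ] (ℝ × ℝ)} {v : ℝ × ℝ} {r : ℝ} (h : B v = r • v) (t : ℝ) :
    B (t • v) = r • (t • v) := by
  rw [map_smul, h, smul_comm]

lemma mem_span_covD {p e : ℝ × ℝ} {u : E2} (hu : u ∈ Submodule.span ℝ {covD p e}) (h0 : u ≠ 0) :
    ∃ t : ℝ, u = covD p (t • e) ∧ t • e ≠ 0 := by
  obtain ⟨t, rfl⟩ := Submodule.mem_span_singleton.1 hu
  refine ⟨t, by rw [map_smul], ?_⟩
  intro h
  apply h0
  rw [← map_smul, h, map_zero]

lemma exists_oseledets_saddle {F : Circle × Circle → W}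
    (hF : IsImmersion ((𝓡 1).prod (𝓡 1)) F) {p : ℝ × ℝ} (hp : IsFix p)
    (hs : Real.cos p.2 = Real.cos p.1) :
    ∃ s, IsChiPlus ((𝓡 1).prod (𝓡 1)) F torF torG (cov p) s := by
  obtain ⟨c, C, hc, hC, hN⟩ := NN_comparison hF p
  let V : Fin 2 → Submodule ℝ E2 :=
    ![Submodule.span ℝ {covD p (1, Real.cos p.1)}, Submodule.span ℝ {covD p (1, -Real.cos p.1)}]
  let χ : Fin 2 → ℝ := ![Real.log (3 / 2), Real.log (1 / 2)]
  have hsq := hp.sq_cos.1
  have hint : DirectSum.IsInternal V := by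
    rw [DirectSum.isInternal_submodule_iff_isCompl V (i := 0) (j := 1) (by decide)
      (by ext i; fin_cases i <;> simp)]
    constructor
    · rw [Submodule.disjoint_def]
      intro u h1 h2
      obtain ⟨a, ha⟩ := Submodule.mem_span_singleton.1 h1
      obtain ⟨b, hb⟩ := Submodule.mem_span_singleton.1 h2
      have h3 : covD p (a • (1, Real.cos p.1)) = covD p (b • (1, -Real.cos p.1)) := by
        rw [map_smul, map_smul]
        exact ha.trans hb.symm
      have h4 := covD_injective p h3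
      have h5 : a = b := by simpa using congrArg Prod.fst h4
      have h6 : a * Real.cos p.1 = b * -Real.cos p.1 := by simpa using congrArg Prod.snd h4
      have h7 : a = 0 := by
        rw [← h5] at h6
        have h8 : a * Real.cos p.1 = 0 := by linarith
        rcases mul_eq_zero.1 h8 with h | h
        · exact h
        · rw [h] at hsq; norm_num at hsq
      rw [← ha, h7, zero_smul]
    · rw [Submodule.codisjoint_iff_exists_add_eq]
      intro u
      obtain ⟨w, rfl⟩ := covD_surjective p u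
      refine ⟨((w.1 + Real.cos p.1 * w.2) / 2) • covD p (1, Real.cos p.1),
        ((w.1 - Real.cos p.1 * w.2) / 2) • covD p (1, -Real.cos p.1),
        Submodule.mem_span_singleton.2 ⟨_, rfl⟩, Submodule.mem_span_singleton.2 ⟨_, rfl⟩, ?_⟩
      rw [← map_smul, ← map_smul, ← map_add]
      congr 1
      ext
      · simp only [Prod.smul_mk, smul_eq_mul, Prod.mk_add_mk]
        ring
      · simp only [Prod.smul_mk, smul_eq_mul, Prod.mk_add_mk]
        have : Real.cos p.1 * Real.cos p.1 = 1 := by rw [← sq]; exact hsq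
        linear_combination w.2 * this
  refine ⟨_, 2, V, χ, ⟨hint, ?_, ?_, ?_⟩, rfl⟩
  · intro i j hij
    have hne : Real.log (3 / 2) ≠ Real.log (1 / 2) := by
      intro h
      have := Real.log_injOn_pos (Set.mem_Ioi.2 (by norm_num)) (Set.mem_Ioi.2 (by norm_num)) h
      norm_num at this
    fin_cases i <;> fin_cases j
    · rfl
    · exact absurd hij hne
    · exact absurd hij.symm hne
    · rfl
  · intro i u hu h0
    fin_cases i
    · obtain ⟨t, rfl, ht⟩ := mem_span_covD hu h0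
      show Tendsto (growth ((𝓡 1).prod (𝓡 1)) F torF (cov p) (covD p _)) atTop (𝓝 (Real.log (3 / 2)))
      rw [fwd_eq hF hp]
      exact exponent_eigen hc hC hN (by norm_num) ht (eigen_smul (saddle_plus hp hs) t)
    · obtain ⟨t, rfl, ht⟩ := mem_span_covD hu h0
      show Tendsto (growth ((𝓡 1).prod (𝓡 1)) F torF (cov p) (covD p _)) atTop (𝓝 (Real.log (1 / 2)))
      rw [fwd_eq hF hp]
      exact exponent_eigen hc hC hN (by norm_num) ht (eigen_smul (saddle_minus hp hs) t)
  · intro i u hu h0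
    fin_cases i
    · obtain ⟨t, rfl, ht⟩ := mem_span_covD hu h0
      show Tendsto (growth ((𝓡 1).prod (𝓡 1)) F torG (cov p) (covD p _)) atTop (𝓝 (-Real.log (3 / 2)))
      rw [bwd_eq hF hp, ← Real.log_inv]
      have : ((3 / 2 : ℝ))⁻¹ = 2 / 3 := by norm_num
      rw [this]
      exact exponent_eigen hc hC hN (by norm_num) ht (eigen_smul (saddle_plus_inv hp hs) t)
    · obtain ⟨t, rfl, ht⟩ := mem_span_covD hu h0
      show Tendsto (growth ((𝓡 1).prod (𝓡 1)) F torG (cov p) (covD p _)) atTop (𝓝 (-Real.log (1 / 2)))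
      rw [bwd_eq hF hp, ← Real.log_inv]
      have : ((1 / 2 : ℝ))⁻¹ = 2 := by norm_num
      rw [this]
      exact exponent_eigen hc hC hN (by norm_num) ht (eigen_smul (saddle_minus_inv hp hs) t)

section Source

variable {p : ℝ × ℝ} (hp : IsFix p) (hs : Real.cos p.2 = -Real.cos p.1)

include hp hs

lemma source_quad (v : ℝ × ℝ) :
    (liftD p v).1 ^ 2 + (liftD p v).2 ^ 2 = (5 / 4) * (v.1 ^ 2 + v.2 ^ 2) := by
  have h := hp.sq_cos.1
  rw [liftD_apply, hs]
  simp only
  linear_combination (v.2 ^ 2 / 4 + v.1 ^ 2 / 4) * h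

lemma source_quad_inv (v : ℝ × ℝ) :
    (invD p v).1 ^ 2 + (invD p v).2 ^ 2 = (4 / 5) * (v.1 ^ 2 + v.2 ^ 2) := by
  have h := source_quad hp hs (invD p v)
  rw [liftD_invD] at h
  rw [h]
  ring

lemma source_forward {F : Circle × Circle → W}
    (hF : IsImmersion ((𝓡 1).prod (𝓡 1)) F) {u : E2} (hu : u ≠ 0) :
    Tendsto (growth ((𝓡 1).prod (𝓡 1)) F torF (cov p) u) atTop
      (𝓝 (Real.log (5 / 4) / 2)) := by
  obtain ⟨c, C, hc, hC, hN⟩ := NN_comparison hF p
  obtain ⟨v, rfl⟩ := covD_surjective p u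
  have hv : v ≠ 0 := by
    intro h
    exact hu (by rw [h, map_zero])
  rw [fwd_eq hF hp]
  exact exponent_quad hc hC hN (by norm_num) hv (source_quad hp hs)

lemma source_backward {F : Circle × Circle → W}
    (hF : IsImmersion ((𝓡 1).prod (𝓡 1)) F) {u : E2} (hu : u ≠ 0) :
    Tendsto (growth ((𝓡 1).prod (𝓡 1)) F torG (cov p) u) atTop
      (𝓝 (-(Real.log (5 / 4) / 2))) := by
  obtain ⟨c, C, hc, hC, hN⟩ := NN_comparison hF p
  obtain ⟨v, rfl⟩ := covD_surjective p u
  have hv : v ≠ 0 := by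
    intro h
    exact hu (by rw [h, map_zero])
  rw [bwd_eq hF hp]
  have := exponent_quad hc hC hN (by norm_num) hv (source_quad_inv hp hs)
  convert! this using 2
  have e : (4 / 5 : ℝ) = (5 / 4)⁻¹ := by norm_num
  rw [e, Real.log_inv]
  ring

omit hp hs in
lemma internal_top : DirectSum.IsInternal (fun _ : Fin 1 => (⊤ : Submodule ℝ E2)) := by
  apply DirectSum.isInternal_submodule_of_iSupIndep_of_iSup_eq_top
  · exact iSupIndep_subsingleton _
  · exact iSup_const

lemma exists_oseledets_source {F : Circle × Circle → W}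
    (hF : IsImmersion ((𝓡 1).prod (𝓡 1)) F) :
    ∃ s, IsChiPlus ((𝓡 1).prod (𝓡 1)) F torF torG (cov p) s := by
  refine ⟨_, 1, fun _ => (⊤ : Submodule ℝ E2), fun _ => Real.log (5 / 4) / 2,
    ⟨?_, ?_, ?_, ?_⟩, rfl⟩
  · exact internal_top
  · intro i j _
    exact Subsingleton.elim i j
  · intro i u _ h0
    exact source_forward hp hs hF h0
  · intro i u _ h0
    exact source_backward hp hs hF h0

end Source

end Pool.Agent.H576R3
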