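import Pool.Agent.H576R3.Lift

set_option autoImplicit false

open scoped Manifold ContDiff Topology
open Set Filter

namespace Pool.Agent.H576R3

attribute [local instance] finrank_real_complex_fact'

/-- The covering map of the torus `Circle × Circle`. -/
noncomputable def cov (p : ℝ × ℝ) : Circle × Circle := (Circle.exp p.1, Circle.exp p.2)

/-- The torus map `(z, w) ↦ (z exp(i Im w / 2), w exp(i Im z / 2))`. -/
noncomputable def torF (x : Circle × Circle) : Circle × Circle :=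
  (x.1 * Circle.exp ((x.2 : ℂ).im / 2), x.2 * Circle.exp ((x.1 : ℂ).im / 2))

lemma exp_im (t : ℝ) : ((Circle.exp t : Circle) : ℂ).im = Real.sin t := by
  rw [Circle.coe_exp, Complex.exp_ofReal_mul_I_im]

lemma exp_re (t : ℝ) : ((Circle.exp t : Circle) : ℂ).re = Real.cos t := by
  rw [Circle.coe_exp, Complex.exp_ofReal_mul_I_re]

lemma torF_cov (p : ℝ × ℝ) : torF (cov p) = cov (liftF p) := by
  simp only [torF, cov, liftF, exp_im, Circle.exp_add]

lemma contMDiff_coe {m : ℕ∞ω} : ContMDiff (𝓡 1) 𝓘(ℝ, ℂ) m (fun z : Circle => (z : ℂ)) :=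
  contMDiff_coe_sphere

lemma contMDiff_im {m : ℕ∞ω} : ContMDiff (𝓡 1) 𝓘(ℝ, ℝ) m (fun z : Circle => (z : ℂ).im / 2) := by
  have h : ContDiff ℝ m (fun z : ℂ => z.im / 2) :=
    (Complex.imCLM.contDiff (n := m)).div_const 2
  exact h.contMDiff.comp contMDiff_coe

lemma contMDiff_cov {m : ℕ∞ω} :
    ContMDiff 𝓘(ℝ, ℝ × ℝ) ((𝓡 1).prod (𝓡 1)) m cov := by
  have h1 : ContMDiff 𝓘(ℝ, ℝ × ℝ) (𝓡 1) m (fun p : ℝ × ℝ => Circle.exp p.1) :=
    contMDiff_circleExp.comp (contDiff_fst (𝕜 := ℝ) (E := ℝ) (F := ℝ) (n := m)).contMDiff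
  have h2 : ContMDiff 𝓘(ℝ, ℝ × ℝ) (𝓡 1) m (fun p : ℝ × ℝ => Circle.exp p.2) :=
    contMDiff_circleExp.comp (contDiff_snd (𝕜 := ℝ) (E := ℝ) (F := ℝ) (n := m)).contMDiff
  exact h1.prodMk h2

lemma contMDiff_torF {m : ℕ∞ω} :
    ContMDiff ((𝓡 1).prod (𝓡 1)) ((𝓡 1).prod (𝓡 1)) m torF := by
  have h1 : ContMDiff ((𝓡 1).prod (𝓡 1)) (𝓡 1) m
      (fun x : Circle × Circle => Circle.exp ((x.2 : ℂ).im / 2)) :=
    contMDiff_circleExp.comp (contMDiff_im.comp contMDiff_snd)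
  have h2 : ContMDiff ((𝓡 1).prod (𝓡 1)) (𝓡 1) m
      (fun x : Circle × Circle => Circle.exp ((x.1 : ℂ).im / 2)) :=
    contMDiff_circleExp.comp (contMDiff_im.comp contMDiff_fst)
  have : LieGroup (𝓡 1) m Circle := LieGroup.of_le le_top
  exact (contMDiff_fst.mul h1).prodMk (contMDiff_snd.mul h2)

end Pool.Agent.H576R3
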