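import Pool.Agent.H576R3.Tor

set_option autoImplicit false

open scoped Manifold ContDiff Topology
open Set Filter

namespace Pool.Agent.H576R3

attribute [local instance] finrank_real_complex_fact'

lemma cov_surjective : Function.Surjective cov := by
  intro x
  refine ⟨(Complex.arg x.1, Complex.arg x.2), ?_⟩
  simp [cov]

lemma cov_eq_cov {p q : ℝ × ℝ} : cov p = cov q ↔
    ∃ m n : ℤ, p = q + ((m : ℝ) * (2 * Real.pi), (n : ℝ) * (2 * Real.pi)) := by
  simp only [cov, Prod.mk.injEq, Circle.exp_eq_exp]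
  constructor
  · rintro ⟨⟨m, hm⟩, ⟨n, hn⟩⟩
    exact ⟨m, n, Prod.ext hm hn⟩
  · rintro ⟨m, n, h⟩
    exact ⟨⟨m, congrArg Prod.fst h⟩, ⟨n, congrArg Prod.snd h⟩⟩

lemma liftF_add (q : ℝ × ℝ) (m n : ℤ) :
    liftF (q + ((m : ℝ) * (2 * Real.pi), (n : ℝ) * (2 * Real.pi))) =
      liftF q + ((m : ℝ) * (2 * Real.pi), (n : ℝ) * (2 * Real.pi)) := by
  simp only [liftF, Prod.fst_add, Prod.snd_add, Real.sin_add_int_mul_two_pi]
  ext <;> simp <;> ring

lemma liftH_symm_add (q : ℝ × ℝ) (m n : ℤ) :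
    liftH.symm (q + ((m : ℝ) * (2 * Real.pi), (n : ℝ) * (2 * Real.pi))) =
      liftH.symm q + ((m : ℝ) * (2 * Real.pi), (n : ℝ) * (2 * Real.pi)) := by
  rw [Homeomorph.symm_apply_eq, liftH_apply, liftF_add, ← liftH_apply, Homeomorph.apply_symm_apply]

lemma cov_liftH_symm {p q : ℝ × ℝ} (h : cov p = cov q) :
    cov (liftH.symm p) = cov (liftH.symm q) := by
  obtain ⟨m, n, rfl⟩ := cov_eq_cov.1 h
  rw [liftH_symm_add]
  exact cov_eq_cov.2 ⟨m, n, rfl⟩

/-- The inverse of the torus map. -/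
noncomputable def torG (x : Circle × Circle) : Circle × Circle :=
  cov (liftH.symm (Complex.arg x.1, Complex.arg x.2))

lemma torG_cov (p : ℝ × ℝ) : torG (cov p) = cov (liftH.symm p) := by
  apply cov_liftH_symm
  simp only [cov, Circle.exp_arg]

lemma torG_torF (x : Circle × Circle) : torG (torF x) = x := by
  obtain ⟨p, rfl⟩ := cov_surjective x
  rw [torF_cov, torG_cov, ← liftH_apply, Homeomorph.symm_apply_apply]

lemma torF_torG (x : Circle × Circle) : torF (torG x) = x := by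
  obtain ⟨p, rfl⟩ := cov_surjective x
  rw [torG_cov, torF_cov, ← liftH_apply, Homeomorph.apply_symm_apply]

/-- A section of the exponential map, smooth near `z₀`. -/
noncomputable def sec (z₀ z : Circle) : ℝ := Complex.arg z₀ + Complex.arg ((z : ℂ) / z₀)

lemma exp_sec (z₀ z : Circle) : Circle.exp (sec z₀ z) = z := by
  have h : ((z : ℂ) / z₀) = ((z / z₀ : Circle) : ℂ) := by simp
  rw [sec, h, Circle.exp_add, Circle.exp_arg, Circle.exp_arg]
  simp

lemma contMDiffAt_sec {m : ℕ∞ω} (z₀ : Circle) :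
    ContMDiffAt (𝓡 1) 𝓘(ℝ, ℝ) m (sec z₀) z₀ := by
  have h1 : ContDiffAt ℝ m (fun z : ℂ => Complex.arg z₀ + (Complex.log (z / z₀)).im) (z₀ : ℂ) := by
    have hne : (z₀ : ℂ) ≠ 0 := Circle.coe_ne_zero z₀
    have h2 : ContDiffAt ℝ m (fun z : ℂ => Complex.log (z / z₀)) (z₀ : ℂ) := by
      have h3 : ContDiffAt ℝ m Complex.log ((z₀ : ℂ) / z₀) := by
        rw [div_self hne]
        exact (Complex.contDiffAt_log (by simp)).restrict_scalars ℝ
      have h4 : ContDiffAt ℝ m (fun z : ℂ => z / z₀) (z₀ : ℂ) := contDiffAt_id.div_const _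
      exact ContDiffAt.comp (z₀ : ℂ) (g := Complex.log) (f := fun z : ℂ => z / z₀) h3 h4
    exact contDiffAt_const.add ((Complex.imCLM.contDiff (n := m)).contDiffAt.comp _ h2)
  have h2 : ContMDiffAt (𝓡 1) 𝓘(ℝ, ℝ) m
      ((fun z : ℂ => Complex.arg z₀ + (Complex.log (z / z₀)).im) ∘ (fun z : Circle => (z : ℂ))) z₀ :=
    h1.contMDiffAt.comp z₀ contMDiff_coe.contMDiffAt
  have h3 : sec z₀ = ((fun z : ℂ => Complex.arg z₀ + (Complex.log (z / z₀)).im) ∘
      (fun z : Circle => (z : ℂ))) := by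
    funext z
    simp [sec, Complex.log_im]
  rw [h3]
  exact h2

lemma torG_eq (x₀ : Circle × Circle) :
    torG = fun x => cov (liftH.symm (sec x₀.1 x.1, sec x₀.2 x.2)) := by
  funext x
  apply cov_liftH_symm
  simp [cov, exp_sec]

lemma contMDiff_torG {m : ℕ∞ω} :
    ContMDiff ((𝓡 1).prod (𝓡 1)) ((𝓡 1).prod (𝓡 1)) m torG := by
  intro x₀
  rw [torG_eq x₀]
  have h1 : ContMDiffAt ((𝓡 1).prod (𝓡 1)) 𝓘(ℝ, ℝ) m
      (fun x : Circle × Circle => sec x₀.1 x.1) x₀ :=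
    (contMDiffAt_sec x₀.1).comp x₀ contMDiffAt_fst
  have h2 : ContMDiffAt ((𝓡 1).prod (𝓡 1)) 𝓘(ℝ, ℝ) m
      (fun x : Circle × Circle => sec x₀.2 x.2) x₀ :=
    (contMDiffAt_sec x₀.2).comp x₀ contMDiffAt_snd
  have h3 : ContMDiffAt ((𝓡 1).prod (𝓡 1)) 𝓘(ℝ, ℝ × ℝ) m
      (fun x : Circle × Circle => (sec x₀.1 x.1, sec x₀.2 x.2)) x₀ := h1.prodMk_space h2
  have h4 : ContMDiffAt ((𝓡 1).prod (𝓡 1)) 𝓘(ℝ, ℝ × ℝ) m
      (fun x : Circle × Circle => liftH.symm (sec x₀.1 x.1, sec x₀.2 x.2)) x₀ :=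
    (liftH_symm_contDiff.contMDiff.contMDiffAt).comp x₀ h3
  exact contMDiff_cov.contMDiffAt.comp x₀ h4

/-- The torus map as an analytic diffeomorphism. -/
noncomputable def torD : Diffeomorph ((𝓡 1).prod (𝓡 1)) ((𝓡 1).prod (𝓡 1))
    (Circle × Circle) (Circle × Circle) ω where
  toFun := torF
  invFun := torG
  left_inv := torG_torF
  right_inv := torF_torG
  contMDiff_toFun := contMDiff_torF
  contMDiff_invFun := contMDiff_torG

end Pool.Agent.H576R3
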